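import Mathlib
import Pool.Agent.H39.BurckelCore

/-!
MP_2bbbb5: a Seymour vertex within distance two (helper17).
-/

set_option autoImplicit false

namespace Pool.Agent.H17.SN

open Classical Pool.Agent.H39.Burckel

/-- A skew-symmetric matrix game has an optimal strategy of value `0`. -/
theorem exists_strategy {ι : Type} [Fintype ι] [Nonempty ι] (A : ι → ι → ℝ)
    (hA : ∀ u v, A u v = -A v u) :
    ∃ q : ι → ℝ, (∀ v, 0 ≤ q v) ∧ ∑ v, q v = 1 ∧ ∀ v, 0 ≤ ∑ u, A v u * q u := by
  by_contra hcon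
  push Not at hcon
  have hskew : ∀ p : ι → ℝ, ∑ v, p v * ∑ u, A v u * p u = 0 := by
    intro p
    have h1 : ∑ v, p v * ∑ u, A v u * p u = ∑ v, ∑ u, p v * (A v u * p u) :=
      Finset.sum_congr rfl fun v _ => Finset.mul_sum _ _ _
    have h2 : ∑ v, ∑ u, p v * (A v u * p u) = ∑ v, ∑ u, p u * (A u v * p v) := Finset.sum_comm
    have h3 : ∑ v, ∑ u, p v * (A v u * p u) = -∑ v, ∑ u, p u * (A u v * p v) := by
      rw [← Finset.sum_neg_distrib]
      refine Finset.sum_congr rfl fun v _ => ?_
      rw [← Finset.sum_neg_distrib]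
      refine Finset.sum_congr rfl fun u _ => ?_
      rw [hA v u]
      ring
    rw [h1]
    linarith
  let L : (ι → ℝ) →ₗ[ℝ] (ι → ℝ) := Matrix.toLin' (Matrix.of A)
  have hL : ∀ q v, L q v = ∑ u, A v u * q u := by
    intro q v
    simp [L, Matrix.mulVec, dotProduct]
  have hLc : Continuous L := LinearMap.continuous_of_finiteDimensional L
  have hK : IsCompact (L '' stdSimplex ℝ ι) := (isCompact_stdSimplex ℝ ι).image hLc
  have hKc : Convex ℝ (L '' stdSimplex ℝ ι) := (convex_stdSimplex ℝ ι).linear_image L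
  have hPc : Convex ℝ {z : ι → ℝ | ∀ v, 0 ≤ z v} := by
    intro a ha b hb s t hs ht _ v
    simp only [Pi.add_apply, Pi.smul_apply, smul_eq_mul]
    exact add_nonneg (mul_nonneg hs (ha v)) (mul_nonneg ht (hb v))
  have hPcl : IsClosed {z : ι → ℝ | ∀ v, 0 ≤ z v} := by
    have : {z : ι → ℝ | ∀ v, 0 ≤ z v} = ⋂ v, {z : ι → ℝ | 0 ≤ z v} := by
      ext z
      simp
    rw [this]
    exact isClosed_iInter fun v => isClosed_le continuous_const (continuous_apply v)
  have hdisj : Disjoint (L '' stdSimplex ℝ ι) {z : ι → ℝ | ∀ v, 0 ≤ z v} := by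
    rw [Set.disjoint_left]
    rintro _ ⟨q, hq, rfl⟩ hz
    obtain ⟨v, hv⟩ := hcon q hq.1 hq.2
    have := hz v
    rw [hL] at this
    linarith
  obtain ⟨f, s, t, h1, h2, h3⟩ := geometric_hahn_banach_compact_closed hKc hK hPc hPcl hdisj
  have ht0 : t < 0 := by
    have := h3 0 (fun v => le_refl _)
    rwa [map_zero] at this
  set p : ι → ℝ := fun v => f (Pi.single v 1) with hp
  have hf : ∀ z : ι → ℝ, f z = ∑ v, p v * z v := by
    intro z
    have h4 : z = ∑ v, z v • (Pi.single v (1 : ℝ) : ι → ℝ) := by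
      ext w
      simp [Finset.sum_apply, Pi.single_apply]
    conv_lhs => rw [h4]
    rw [map_sum]
    refine Finset.sum_congr rfl fun v _ => ?_
    rw [map_smul, smul_eq_mul, mul_comm]
  have hp0 : ∀ v, 0 ≤ p v := by
    intro v
    by_contra hv
    push Not at hv
    have h4 := h3 ((t / p v) • (Pi.single v (1 : ℝ) : ι → ℝ)) (by
      intro w
      simp only [Pi.smul_apply, smul_eq_mul]
      refine mul_nonneg (div_nonneg_of_nonpos ht0.le hv.le) ?_
      rw [Pi.single_apply]
      split_ifs <;> norm_num)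
    rw [map_smul, smul_eq_mul] at h4
    have h5 : t / p v * f (Pi.single v 1) = t := div_mul_cancel₀ t hv.ne
    rw [h5] at h4
    exact lt_irrefl _ h4
  have hsum : 0 < ∑ v, p v := by
    rcases (Finset.sum_nonneg fun v (_ : v ∈ Finset.univ) => hp0 v).lt_or_eq with h | h
    · exact h
    · exfalso
      have h4 : ∀ v, p v = 0 := fun v =>
        (Finset.sum_eq_zero_iff_of_nonneg fun v _ => hp0 v).1 h.symm v (Finset.mem_univ v)
      obtain ⟨v₀⟩ := ‹Nonempty ι›
      have h5 := h1 (L (Pi.single v₀ 1)) ⟨_, ⟨fun w => by rw [Pi.single_apply]; split_ifs <;> norm_num,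
        by simp⟩, rfl⟩
      rw [hf] at h5
      have h6 : ∑ v, p v * L (Pi.single v₀ 1) v = 0 :=
        Finset.sum_eq_zero fun v _ => by rw [h4 v, zero_mul]
      rw [h6] at h5
      linarith
  have h4 := h1 (L (fun v => (∑ w, p w)⁻¹ * p v)) ⟨_, ⟨fun w => mul_nonneg (inv_nonneg.2 hsum.le) (hp0 w),
    by rw [← Finset.mul_sum, inv_mul_cancel₀ hsum.ne']⟩, rfl⟩
  rw [hf] at h4
  have h5 : ∑ v, p v * L (fun v => (∑ w, p w)⁻¹ * p v) v = (∑ w, p w)⁻¹ * ∑ v, p v * ∑ u, A v u * p u := by
    rw [Finset.mul_sum]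
    refine Finset.sum_congr rfl fun v _ => ?_
    rw [hL]
    have : ∑ u, A v u * ((∑ w, p w)⁻¹ * p u) = (∑ w, p w)⁻¹ * ∑ u, A v u * p u := by
      rw [Finset.mul_sum]
      exact Finset.sum_congr rfl fun u _ => by ring
    rw [this]
    ring
  rw [h5, hskew, mul_zero] at h4
  linarith

/-- `v` is at distance at most two from `u` -/
def Near {V : Type} (G : Digraph V) (u v : V) : Prop :=
  v = u ∨ G.Adj u v ∨ ∃ w, G.Adj u w ∧ G.Adj w v

theorem near_iff {V : Type} (G : Digraph V) (u v : V) : WithinDist G 2 u v ↔ Near G u v := by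
  constructor
  · rintro ⟨m, hm, p, h0, hl, hp⟩
    have hm' : m = 0 ∨ m = 1 ∨ m = 2 := by omega
    rcases hm' with rfl | rfl | rfl
    · left
      rw [← hl, ← h0]
      rfl
    · right; left
      have h1 := hp 0
      rw [← h0, ← hl]
      exact h1
    · right; right
      have h1 := hp 0
      have h2 := hp 1
      refine ⟨p 1, ?_, ?_⟩
      · rw [← h0]
        exact h1
      · rw [← hl]
        exact h2
  · rintro (rfl | h | ⟨w, h1, h2⟩)
    · exact (withinDist_refl G v).mono (by omega)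
    · exact ((withinDist_refl G u).step h).mono (by omega)
    · exact ((withinDist_refl G u).step h1).step h2

/-- every out-neighbour of `b` is at distance at most two from `a` -/
def Covers {V : Type} (G : Digraph V) (a b : V) : Prop := ∀ v, G.Adj b v → WithinDist G 2 a v

/-- the condition on the pairs of non-adjacent vertices at distance at most two from `x` -/
def Tame {V : Type} (G : Digraph V) (x : V) : Prop :=
  ∀ a b, WithinDist G 2 x a → WithinDist G 2 x b → a ≠ b → ¬ G.Adj a b → ¬ G.Adj b a →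
    (Covers G a b ∧ Covers G b a) ∨ (Covers G a b ∧ WithinDist G 2 a b) ∨
      (Covers G b a ∧ WithinDist G 2 b a)

/-- the matrix of the game -/
theorem exists_matrix {V : Type} (G : Digraph V) (hG : Oriented G) (x : V) (hT : Tame G x) :
    ∃ A : V → V → ℝ, (∀ u v, A u v = -A v u) ∧ (∀ u v, A u v ≤ 1) ∧
      (∀ u v, G.Adj u v → A u v = 1) ∧
      (∀ w y v, Near G x w → Near G x y → G.Adj y v → ¬ Near G w v → A w y = -1) ∧
      (∀ w v, Near G x w → Near G x v → ¬ Near G w v → A w v ≤ 0) := by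
  have hG' : ∀ u v, G.Adj u v → G.Adj v u → False := fun u v h1 h2 => hG u v h1 h2
  set A : V → V → ℝ := fun u v =>
    if G.Adj u v then 1 else if G.Adj v u then -1 else if u = v then 0
    else if Covers G u v ∧ Covers G v u then 0
    else if Covers G u v then 1 else if Covers G v u then -1 else 0 with hA
  have hskew : ∀ u v, A u v = -A v u := by
    intro u v
    simp only [hA]
    by_cases h1 : G.Adj u v
    · have h2 : ¬ G.Adj v u := fun h => hG' u v h1 h
      rw [if_pos h1, if_neg h2, if_pos h1, neg_neg]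
    · by_cases h2 : G.Adj v u
      · rw [if_neg h1, if_pos h2, if_pos h2]
      · rw [if_neg h1, if_neg h2, if_neg h2, if_neg h1]
        by_cases h3 : u = v
        · rw [if_pos h3, if_pos h3.symm, neg_zero]
        · rw [if_neg h3, if_neg (Ne.symm h3)]
          by_cases h4 : Covers G u v <;> by_cases h5 : Covers G v u <;> simp [h4, h5]
  have harc : ∀ u v, G.Adj u v → A u v = 1 := fun u v h => by simp only [hA]; rw [if_pos h]
  have hback : ∀ u v, G.Adj v u → A u v = -1 := fun u v h => by rw [hskew, harc v u h]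
  refine ⟨A, hskew, ?_, harc, ?_, ?_⟩
  · intro u v
    simp only [hA]
    split_ifs <;> norm_num
  · intro w y v hxw hxy hyv hw
    by_cases h1 : G.Adj w y
    · exact absurd (Or.inr (Or.inr ⟨y, h1, hyv⟩)) hw
    by_cases h2 : G.Adj y w
    · exact hback w y h2
    have h3 : w ≠ y := by
      rintro rfl
      exact hw (Or.inr (Or.inl hyv))
    have h4 : ¬ Covers G w y := fun h => hw ((near_iff G w v).1 (h v hyv))
    have h5 : Covers G y w := by
      rcases hT w y ((near_iff G x w).2 hxw) ((near_iff G x y).2 hxy) h3 h1 h2 with h | h | h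
      · exact h.2
      · exact absurd h.1 h4
      · exact h.1
    simp only [hA]
    rw [if_neg h1, if_neg h2, if_neg h3, if_neg (fun h => h4 h.1), if_neg h4, if_pos h5]
  · intro w v hxw hxv hw
    by_cases h1 : G.Adj w v
    · exact absurd (Or.inr (Or.inl h1)) hw
    by_cases h2 : G.Adj v w
    · rw [hback w v h2]
      norm_num
    have h3 : w ≠ v := by
      rintro rfl
      exact hw (Or.inl rfl)
    have h4 : Covers G w v → Covers G v w := by
      intro h
      rcases hT w v ((near_iff G x w).2 hxw) ((near_iff G x v).2 hxv) h3 h1 h2 with h' | h' | h'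
      · exact h'.2
      · exact absurd ((near_iff G w v).1 h'.2) hw
      · exact h'.1
    simp only [hA]
    rw [if_neg h1, if_neg h2, if_neg h3]
    by_cases h5 : Covers G w v
    · rw [if_pos ⟨h5, h4 h5⟩]
    · rw [if_neg (fun h => h5 h.1), if_neg h5]
      split_ifs <;> norm_num

section

variable {V : Type} [Fintype V] (G : Digraph V)

/-- One row of the matrix gives the inequality for the vertex `v`. -/
theorem row_ineq (A : V → V → ℝ) (h1 : ∀ u v, A u v ≤ 1) (C : Finset V)
    (q : V → ℝ) (hq : ∀ v, 0 ≤ q v) (r v : V) (hr : 0 ≤ ∑ u ∈ C, A r u * q u)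
    (hY : ∀ u ∈ C, G.Adj u v → A r u = -1) (hv : v ∈ C → A r v ≤ 0)
    (hZ : ∑ u ∈ C.filter (fun u => ¬ Near G u v), A r u * q u ≤ 0) :
    ∑ u ∈ C.filter (fun u => G.Adj u v), q u ≤ ∑ u ∈ C.filter (fun u => v ∈ N2 G u), q u := by
  have key : ∀ u ∈ C, A r u * q u ≤ (if G.Adj u v then -q u else 0) +
      (if v ∈ N2 G u then q u else 0) + (if ¬ Near G u v then A r u * q u else 0) := by
    intro u hu
    have hqu := hq u
    by_cases e1 : G.Adj u v
    · have e2 : ¬ v ∈ N2 G u := fun h => ((mem_N2 G).1 h).2.1 e1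
      have e3 : ¬ ¬ Near G u v := fun h => h (Or.inr (Or.inl e1))
      rw [if_pos e1, if_neg e2, if_neg e3, hY u hu e1]
      linarith
    · rw [if_neg e1]
      by_cases e2 : v ∈ N2 G u
      · have e3 : ¬ ¬ Near G u v := by
          intro h
          obtain ⟨-, -, w, h1, h2⟩ := (mem_N2 G).1 e2
          exact h (Or.inr (Or.inr ⟨w, h1, h2⟩))
        rw [if_pos e2, if_neg e3]
        nlinarith [h1 r u]
      · rw [if_neg e2]
        by_cases e3 : Near G u v
        · rw [if_neg (not_not.2 e3)]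
          have e4 : v = u := by
            rcases e3 with h | h | ⟨w, h1, h2⟩
            · exact h
            · exact absurd h e1
            · by_contra hne
              exact e2 ((mem_N2 G).2 ⟨hne, e1, w, h1, h2⟩)
          subst e4
          nlinarith [hv hu]
        · rw [if_pos e3]
          linarith
  have hsum := hr.trans (Finset.sum_le_sum key)
  rw [Finset.sum_add_distrib, Finset.sum_add_distrib, ← Finset.sum_filter, ← Finset.sum_filter,
    ← Finset.sum_filter, Finset.sum_neg_distrib] at hsum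
  linarith

omit [Fintype V] in
theorem skew_sum (A : V → V → ℝ) (hA : ∀ u v, A u v = -A v u) (Z : Finset V) (q : V → ℝ) :
    ∑ w ∈ Z, q w * ∑ u ∈ Z, A w u * q u = 0 := by
  have h1 : ∑ w ∈ Z, q w * ∑ u ∈ Z, A w u * q u = ∑ w ∈ Z, ∑ u ∈ Z, q w * (A w u * q u) :=
    Finset.sum_congr rfl fun v _ => Finset.mul_sum _ _ _
  have h2 : ∑ w ∈ Z, ∑ u ∈ Z, q w * (A w u * q u) = ∑ w ∈ Z, ∑ u ∈ Z, q u * (A u w * q w) :=
    Finset.sum_comm
  have h3 : ∑ w ∈ Z, ∑ u ∈ Z, q w * (A w u * q u) = -∑ w ∈ Z, ∑ u ∈ Z, q u * (A u w * q w) := by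
    rw [← Finset.sum_neg_distrib]
    refine Finset.sum_congr rfl fun v _ => ?_
    rw [← Finset.sum_neg_distrib]
    refine Finset.sum_congr rfl fun u _ => ?_
    rw [hA v u]
    ring
  rw [h1]
  linarith

/-- The local form of Fisher's distribution. -/
theorem ball_dist (hG : Oriented G) (x : V) (hT : Tame G x) :
    ∃ q : V → ℝ, (∀ v, 0 ≤ q v) ∧ (∀ v, ¬ WithinDist G 2 x v → q v = 0) ∧ ∑ v, q v = 1 ∧
      ∀ v, ∑ u ∈ Finset.univ.filter (fun u => G.Adj u v), q u ≤
        ∑ u ∈ Finset.univ.filter (fun u => v ∈ N2 G u), q u := by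
  obtain ⟨A, hA, hA1, hA2, hA3, hA4⟩ := exists_matrix G hG x hT
  set C : Finset V := Finset.univ.filter (fun v => Near G x v) with hC
  have hxC : x ∈ C := by rw [hC, Finset.mem_filter]; exact ⟨Finset.mem_univ _, Or.inl rfl⟩
  have hCn : ∀ v ∈ C, Near G x v := fun v hv => by
    rw [hC, Finset.mem_filter] at hv
    exact hv.2
  have _ : Nonempty {v // v ∈ C} := ⟨⟨x, hxC⟩⟩
  obtain ⟨q', h1, h2, h3⟩ := exists_strategy (fun u v : {v // v ∈ C} => A u.1 v.1)
    (fun u v => hA u.1 v.1)
  set q : V → ℝ := fun v => if h : v ∈ C then q' ⟨v, h⟩ else 0 with hq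
  have hqC : ∀ (v : V) (h : v ∈ C), q v = q' ⟨v, h⟩ := fun v h => by simp only [hq]; rw [dif_pos h]
  have hq0 : ∀ v, v ∉ C → q v = 0 := fun v h => by simp only [hq]; rw [dif_neg h]
  have hqn : ∀ v, 0 ≤ q v := by
    intro v
    by_cases h : v ∈ C
    · rw [hqC v h]
      exact h1 _
    · rw [hq0 v h]
  have hsumC : ∑ v ∈ C, q v = 1 := by
    rw [← h2, ← Finset.sum_coe_sort C]
    exact Finset.sum_congr rfl fun v _ => hqC v.1 v.2
  have hrow : ∀ v ∈ C, 0 ≤ ∑ u ∈ C, A v u * q u := by
    intro v hv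
    have h4 := h3 ⟨v, hv⟩
    rw [← Finset.sum_coe_sort C]
    refine h4.trans (le_of_eq (Finset.sum_congr rfl fun u _ => ?_))
    rw [hqC u.1 u.2]
  refine ⟨q, hqn, ?_, ?_, ?_⟩
  · intro v hv
    refine hq0 v fun h => hv ((near_iff G x v).2 ?_)
    rw [hC, Finset.mem_filter] at h
    exact h.2
  · rw [← hsumC]
    exact (Finset.sum_subset (Finset.subset_univ C) fun v _ hv => hq0 v hv).symm
  · intro v
    have e1 : ∀ (P : V → Prop) [DecidablePred P],
        ∑ u ∈ Finset.univ.filter P, q u = ∑ u ∈ C.filter P, q u := by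
      intro P _
      refine (Finset.sum_subset (Finset.filter_subset_filter _ (Finset.subset_univ C)) ?_).symm
      intro u hu hu'
      refine hq0 u fun h => hu' ?_
      rw [Finset.mem_filter] at hu ⊢
      exact ⟨h, hu.2⟩
    rw [e1, e1]
    by_cases hZ : (C.filter (fun u => ¬ Near G u v)).Nonempty
    · obtain ⟨w, hw, hwZ⟩ : ∃ w ∈ C.filter (fun u => ¬ Near G u v),
          ∑ u ∈ C.filter (fun u => ¬ Near G u v), A w u * q u ≤ 0 := by
        by_contra hcon
        push Not at hcon
        have h4 := skew_sum A hA (C.filter (fun u => ¬ Near G u v)) q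
        have h5 := (Finset.sum_eq_zero_iff_of_nonneg (fun w hw =>
          mul_nonneg (hqn w) (hcon w hw).le)).1 h4
        have h6 : ∀ w ∈ C.filter (fun u => ¬ Near G u v), q w = 0 := by
          intro w hw
          rcases mul_eq_zero.1 (h5 w hw) with h | h
          · exact h
          · exact absurd h (hcon w hw).ne'
        obtain ⟨w, hw⟩ := hZ
        have h7 := hcon w hw
        rw [Finset.sum_eq_zero fun u hu => by rw [h6 u hu, mul_zero]] at h7
        exact lt_irrefl _ h7
      rw [Finset.mem_filter] at hw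
      exact row_ineq G A hA1 C q hqn w v (hrow w hw.1)
        (fun u hu' hu => hA3 w u v (hCn w hw.1) (hCn u hu') hu hw.2)
        (fun hv => hA4 w v (hCn w hw.1) (hCn v hv) hw.2) hwZ
    · rw [Finset.not_nonempty_iff_eq_empty] at hZ
      by_cases hv : v ∈ C
      · refine row_ineq G A hA1 C q hqn v v (hrow v hv) ?_ ?_ ?_
        · intro u _ hu
          rw [hA, hA2 u v hu]
        · intro _
          have := hA v v
          linarith
        · rw [hZ, Finset.sum_empty]
      · have hx : ¬ Near G x v := fun h => hv (by rw [hC, Finset.mem_filter]; exact ⟨Finset.mem_univ _, h⟩)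
        refine row_ineq G A hA1 C q hqn x v (hrow x hxC)
          (fun u hu' hu => hA3 x u v (hCn x hxC) (hCn u hu') hu hx) ?_ ?_
        · intro h
          exact absurd h hv
        · rw [hZ, Finset.sum_empty]

/-- A distribution as above yields a vertex for every weight function. -/
theorem exists_of_dist (q : V → ℝ) (hq : ∀ v, 0 ≤ q v) (h1 : ∑ v, q v = 1)
    (h : ∀ v, ∑ u ∈ Finset.univ.filter (fun u => G.Adj u v), q u ≤
        ∑ u ∈ Finset.univ.filter (fun u => v ∈ N2 G u), q u) (ω : V → ℝ) (hω : ∀ v, 0 ≤ ω v) :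
    ∃ g, q g ≠ 0 ∧ ∑ w ∈ N G g, ω w ≤ ∑ w ∈ N2 G g, ω w := by
  by_contra hcon
  push Not at hcon
  have e : ∀ M : V → Finset V, ∑ v, ω v * ∑ u ∈ Finset.univ.filter (fun u => v ∈ M u), q u =
      ∑ g, q g * ∑ w ∈ M g, ω w := by
    intro M
    have e1 : ∀ v, ω v * ∑ u ∈ Finset.univ.filter (fun u => v ∈ M u), q u =
        ∑ u, if v ∈ M u then ω v * q u else 0 := by
      intro v
      rw [Finset.mul_sum, Finset.sum_filter]
    have e2 : ∀ g, q g * ∑ w ∈ M g, ω w = ∑ v, if v ∈ M g then ω v * q g else 0 := by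
      intro g
      rw [Finset.mul_sum, ← Finset.sum_filter, Finset.filter_mem_eq_inter, Finset.univ_inter]
      exact Finset.sum_congr rfl fun v _ => mul_comm _ _
    rw [Finset.sum_congr rfl fun v _ => e1 v, Finset.sum_congr rfl fun g _ => e2 g,
      Finset.sum_comm]
  have h2 : ∑ v, ω v * ∑ u ∈ Finset.univ.filter (fun u => v ∈ N G u), q u ≤
      ∑ v, ω v * ∑ u ∈ Finset.univ.filter (fun u => v ∈ N2 G u), q u := by
    refine Finset.sum_le_sum fun v _ => mul_le_mul_of_nonneg_left ?_ (hω v)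
    have e3 : Finset.univ.filter (fun u => v ∈ N G u) = Finset.univ.filter (fun u => G.Adj u v) := by
      ext u
      simp [mem_N]
    rw [e3]
    exact h v
  rw [e, e] at h2
  have h3 : ∀ g, q g * ∑ w ∈ N2 G g, ω w ≤ q g * ∑ w ∈ N G g, ω w := by
    intro g
    by_cases hg : q g = 0
    · rw [hg, zero_mul, zero_mul]
    · exact mul_le_mul_of_nonneg_left (hcon g hg).le (hq g)
  have h4 := (Finset.sum_eq_sum_iff_of_le fun g _ => h3 g).1
    (le_antisymm (Finset.sum_le_sum fun g _ => h3 g) h2)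
  have h5 : ∀ g, q g = 0 := by
    intro g
    by_contra hg
    have h6 := mul_left_cancel₀ hg (h4 g (Finset.mem_univ g))
    exact (hcon g hg).ne h6
  rw [Finset.sum_eq_zero fun g _ => h5 g] at h1
  exact zero_ne_one h1

end

end Pool.Agent.H17.SN
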