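import Mathlib
import Pool.Agent.H17.SN.Ball
import Pool.Agent.H46.T6.Tuk

/-!
MP_2bbbb5: a Seymour vertex within distance two when every vertex has at most one non-neighbour, or
when the graph of the non-adjacent pairs is a threshold graph (helper17).  The game and its
strictly complementary solution.
-/

set_option autoImplicit false

namespace Pool.Agent.H17.SN

open Classical Pool.Agent.H39.Burckel

section

variable {V : Type} (G : Digraph V)

/-- `a` and `b` are distinct and not adjacent -/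
def Miss (a b : V) : Prop := a ≠ b ∧ ¬ G.Adj a b ∧ ¬ G.Adj b a

/-- the out-neighbours of `b` are at distance at most two from `a` -/
def Cov (a b : V) : Prop := ∀ v, G.Adj b v → Near G a v

def Wild (a b : V) : Prop := Miss G a b ∧ ¬ Cov G a b ∧ ¬ Cov G b a

theorem Miss.symm {G : Digraph V} {a b : V} (h : Miss G a b) : Miss G b a := ⟨h.1.symm, h.2.2, h.2.1⟩

theorem Wild.symm {G : Digraph V} {a b : V} (h : Wild G a b) : Wild G b a := ⟨h.1.symm, h.2.2, h.2.1⟩

/-- the matrix of the game -/
noncomputable def mat (u v : V) : ℚ :=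
  if G.Adj u v then 1 else if G.Adj v u then -1 else if u = v then 0
  else (if Cov G u v then 1 else 0) - (if Cov G v u then 1 else 0)

theorem mat_skew (hG : Oriented G) (u v : V) : mat G u v = -mat G v u := by
  unfold mat
  by_cases h1 : G.Adj u v
  · have h2 : ¬ G.Adj v u := hG _ _ h1
    rw [if_pos h1, if_neg h2, if_pos h1, neg_neg]
  · by_cases h2 : G.Adj v u
    · rw [if_neg h1, if_pos h2, if_pos h2]
    · rw [if_neg h1, if_neg h2, if_neg h2, if_neg h1]
      by_cases h3 : u = v
      · rw [if_pos h3, if_pos h3.symm, neg_zero]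
      · rw [if_neg h3, if_neg (Ne.symm h3)]
        ring

theorem mat_le (u v : V) : mat G u v ≤ 1 := by
  unfold mat
  split_ifs <;> norm_num

theorem mat_arc {u v : V} (h : G.Adj u v) : mat G u v = 1 := by
  unfold mat
  rw [if_pos h]

theorem mat_back (hG : Oriented G) {u v : V} (h : G.Adj v u) : mat G u v = -1 := by
  rw [mat_skew G hG, mat_arc G h]

theorem mat_wild {a b : V} (h : Wild G a b) : mat G a b = 0 := by
  unfold mat
  rw [if_neg h.1.2.1, if_neg h.1.2.2, if_neg h.1.1, if_neg h.2.1, if_neg h.2.2, sub_zero]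

theorem mat_Y (hG : Oriented G) {w y v : V} (hyv : G.Adj y v) (hw : ¬ Near G w v) :
    mat G w y = -1 ∨ Wild G w y := by
  by_cases h1 : G.Adj w y
  · exact absurd (Or.inr (Or.inr ⟨y, h1, hyv⟩)) hw
  by_cases h2 : G.Adj y w
  · exact Or.inl (mat_back G hG h2)
  have h3 : w ≠ y := by
    rintro rfl
    exact hw (Or.inr (Or.inl hyv))
  have h4 : ¬ Cov G w y := fun h => hw (h v hyv)
  by_cases h5 : Cov G y w
  · left
    unfold mat
    rw [if_neg h1, if_neg h2, if_neg h3, if_neg h4, if_pos h5]
    norm_num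
  · exact Or.inr ⟨⟨h3, h1, h2⟩, h4, h5⟩

theorem mat_Z (hG : Oriented G) {w v : V} (hw : ¬ Near G w v) :
    mat G w v ≤ 0 ∨ (Miss G w v ∧ ¬ Cov G v w) := by
  by_cases h1 : G.Adj w v
  · exact absurd (Or.inr (Or.inl h1)) hw
  by_cases h2 : G.Adj v w
  · left
    rw [mat_back G hG h2]
    norm_num
  have h3 : w ≠ v := by
    rintro rfl
    exact hw (Or.inl rfl)
  by_cases h5 : Cov G v w
  · left
    unfold mat
    rw [if_neg h1, if_neg h2, if_neg h3, if_pos h5]
    split_ifs <;> norm_num
  · exact Or.inr ⟨⟨h3, h1, h2⟩, h5⟩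

end

section

variable {V : Type} [Fintype V] (G : Digraph V)

/-- a strictly complementary solution of the game on the ball around `x` -/
structure Sol (x : V) (q : V → ℝ) : Prop where
  nonneg : ∀ v, 0 ≤ q v
  off : ∀ v, ¬ Near G x v → q v = 0
  sum : ∑ v, q v = 1
  row : ∀ v, Near G x v → 0 ≤ ∑ u, (mat G v u : ℝ) * q u
  strict : ∀ v, Near G x v → q v = 0 → 0 < ∑ u, (mat G v u : ℝ) * q u

theorem exists_sol (hG : Oriented G) (x : V) : ∃ q : V → ℝ, Sol G x q := by
  set C : Finset V := Finset.univ.filter (fun v => Near G x v) with hC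
  have hmem : ∀ v, v ∈ C ↔ Near G x v := fun v => by rw [hC, Finset.mem_filter]; simp
  have hxC : x ∈ C := (hmem x).2 (Or.inl rfl)
  obtain ⟨z, h1, h2, h3⟩ := Pool.Agent.H46.T6.tucker
    (Matrix.of fun u v : {v // v ∈ C} => mat G u.1 v.1) (by
      ext u v
      simp only [Matrix.transpose_apply, Matrix.of_apply, Matrix.neg_apply]
      exact mat_skew G hG _ _)
  set s : ℚ := ∑ i, z i with hs
  have hs0 : 0 < s := by
    rcases (Finset.sum_nonneg fun i (_ : i ∈ Finset.univ) => h1 i).lt_or_eq with h | h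
    · exact h
    · exfalso
      have h4 : ∀ i, z i = 0 := fun i =>
        (Finset.sum_eq_zero_iff_of_nonneg fun i _ => h1 i).1 h.symm i (Finset.mem_univ i)
      have h5 := h3 ⟨x, hxC⟩
      have h6 : z = 0 := funext h4
      rw [h6, Matrix.mulVec_zero] at h5
      simp at h5
  set p : V → ℚ := fun v => if h : v ∈ C then z ⟨v, h⟩ / s else 0 with hp
  have hpC : ∀ i : {v // v ∈ C}, p i.1 = z i / s := fun i => by
    simp only [hp]; rw [dif_pos i.2]
  have hp0 : ∀ v, v ∉ C → p v = 0 := fun v h => by simp only [hp]; rw [dif_neg h]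
  have hsumf : ∀ f : V → ℚ, ∑ u, f u * p u = (∑ i : {v // v ∈ C}, f i.1 * z i) / s := by
    intro f
    rw [Finset.sum_div, ← Finset.sum_subset (Finset.subset_univ C)
      (fun v _ hv => by rw [hp0 v hv, mul_zero]), ← Finset.sum_coe_sort C]
    refine Finset.sum_congr rfl fun i _ => ?_
    rw [hpC i]
    ring
  have hcast : ∀ v, (∑ u, (mat G v u : ℝ) * ((p u : ℚ) : ℝ)) = ((∑ u, mat G v u * p u : ℚ) : ℝ) := by
    intro v
    push_cast
    rfl
  have hmv : ∀ (v : V) (hv : v ∈ C), ∑ u, mat G v u * p u =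
      (Matrix.of fun u v : {v // v ∈ C} => mat G u.1 v.1).mulVec z ⟨v, hv⟩ / s := by
    intro v hv
    rw [hsumf]
    rfl
  refine ⟨fun v => ((p v : ℚ) : ℝ), ?_, ?_, ?_, ?_, ?_⟩
  · intro v
    have : 0 ≤ p v := by
      by_cases h : v ∈ C
      · rw [hpC ⟨v, h⟩]
        exact div_nonneg (h1 _) hs0.le
      · rw [hp0 v h]
    exact_mod_cast this
  · intro v hv
    have := hp0 v (fun h => hv ((hmem v).1 h))
    exact_mod_cast this
  · have h4 := hsumf fun _ => 1
    simp only [one_mul] at h4
    rw [← hs, div_self hs0.ne'] at h4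
    exact_mod_cast h4
  · intro v hv
    rw [hcast, hmv v ((hmem v).2 hv)]
    exact_mod_cast div_nonneg (h2 _) hs0.le
  · intro v hv hq
    rw [hcast, hmv v ((hmem v).2 hv)]
    have h4 := h3 ⟨v, (hmem v).2 hv⟩
    have h5 : p v = 0 := by exact_mod_cast hq
    rw [hpC ⟨v, (hmem v).2 hv⟩, div_eq_zero_iff] at h5
    have h6 : z ⟨v, (hmem v).2 hv⟩ = 0 := h5.resolve_right hs0.ne'
    rw [h6, zero_add] at h4
    exact_mod_cast div_pos h4 hs0

/-- the general row inequality -/
theorem gen_ineq (hG : Oriented G) (A : V → V → ℝ) (h1 : ∀ u v, A u v ≤ 1)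
    (q : V → ℝ) (hq : ∀ v, 0 ≤ q v) (r v : V) :
    ∑ u, A r u * q u ≤ ∑ u ∈ Finset.univ.filter (fun u => G.Adj u v), A r u * q u +
      ∑ u ∈ Finset.univ.filter (fun u => v ∈ N2 G u), q u +
      ∑ u ∈ Finset.univ.filter (fun u => ¬ Near G u v), A r u * q u + A r v * q v := by
  have key : ∀ u, A r u * q u ≤ (if G.Adj u v then A r u * q u else 0) +
      (if v ∈ N2 G u then q u else 0) + (if ¬ Near G u v then A r u * q u else 0) +
      (if u = v then A r v * q v else 0) := by
    intro u
    have hqu := hq u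
    by_cases e0 : u = v
    · subst e0
      have e1 : ¬ G.Adj u u := fun h => hG _ _ h h
      have e2 : ¬ u ∈ N2 G u := fun h => ((mem_N2 G).1 h).1 rfl
      have e3 : ¬ ¬ Near G u u := fun h => h (Or.inl rfl)
      rw [if_neg e1, if_neg e2, if_neg e3, if_pos rfl]
      linarith
    rw [if_neg e0]
    by_cases e1 : G.Adj u v
    · have e2 : ¬ v ∈ N2 G u := fun h => ((mem_N2 G).1 h).2.1 e1
      have e3 : ¬ ¬ Near G u v := fun h => h (Or.inr (Or.inl e1))
      rw [if_pos e1, if_neg e2, if_neg e3]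
      linarith
    · rw [if_neg e1]
      by_cases e2 : v ∈ N2 G u
      · have e3 : ¬ ¬ Near G u v := by
          intro h
          obtain ⟨-, -, w, h1, h2⟩ := (mem_N2 G).1 e2
          exact h (Or.inr (Or.inr ⟨w, h1, h2⟩))
        rw [if_pos e2, if_neg e3]
        nlinarith [h1 r u]
      · rw [if_neg e2]
        by_cases e3 : Near G u v
        · exfalso
          rcases e3 with h | h | ⟨w, h1, h2⟩
          · exact e0 h.symm
          · exact e1 h
          · exact e2 ((mem_N2 G).2 ⟨fun h => e0 h.symm, e1, w, h1, h2⟩)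
        · rw [if_pos e3]
          linarith
  have hsum := Finset.sum_le_sum fun u (_ : u ∈ Finset.univ) => key u
  rw [Finset.sum_add_distrib, Finset.sum_add_distrib, Finset.sum_add_distrib,
    ← Finset.sum_filter, ← Finset.sum_filter, ← Finset.sum_filter, Finset.sum_ite_eq'] at hsum
  simpa using hsum

end

end Pool.Agent.H17.SN
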