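import Mathlib
import Pool.Agent.H17.SN.Ball2

/-!
MP_2bbbb5: a Seymour vertex within distance two; common lemmas and the threshold case (helper17).
-/

set_option autoImplicit false

namespace Pool.Agent.H17.SN

open Classical Pool.Agent.H39.Burckel

variable {V : Type} [Fintype V] (G : Digraph V) (q : V → ℝ)

/-- probability that `v` is an out-neighbour -/
noncomputable def Yv (v : V) : ℝ := ∑ u ∈ Finset.univ.filter (fun u => G.Adj u v), q u

/-- probability that `v` is a second out-neighbour -/
noncomputable def Rv (v : V) : ℝ := ∑ u ∈ Finset.univ.filter (fun u => v ∈ N2 G u), q u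

noncomputable def Sv (v r : V) : ℝ :=
  ∑ u ∈ Finset.univ.filter (fun u => ¬ Near G u v), (mat G r u : ℝ) * q u

noncomputable def Ev (v r : V) : ℝ :=
  ∑ u ∈ Finset.univ.filter (fun u => G.Adj u v), (1 + (mat G r u : ℝ)) * q u

noncomputable def Row (r : V) : ℝ := ∑ u, (mat G r u : ℝ) * q u

variable {G q}

theorem row_use (hG : Oriented G) (hq : ∀ v, 0 ≤ q v) (r v : V) :
    Row G q r ≤ -Yv G q v + Ev G q v r + Rv G q v + Sv G q v r + (mat G r v : ℝ) * q v := by
  have h := gen_ineq G hG (fun u v => (mat G u v : ℝ)) (fun u v => by exact_mod_cast mat_le G u v)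
    q hq r v
  have h2 : Ev G q v r = Yv G q v +
      ∑ u ∈ Finset.univ.filter (fun u => G.Adj u v), (mat G r u : ℝ) * q u := by
    unfold Ev Yv
    rw [← Finset.sum_add_distrib]
    exact Finset.sum_congr rfl fun u _ => by ring
  unfold Row Rv Sv
  linarith

theorem sum_loss : ∑ v, (Yv G q v - Rv G q v) =
    ∑ g, q g * (((N G g).card : ℝ) - ((N2 G g).card : ℝ)) := by
  have e : ∀ M : V → Finset V, ∑ v, ∑ u ∈ Finset.univ.filter (fun u => v ∈ M u), q u =
      ∑ g, q g * ((M g).card : ℝ) := by
    intro M
    have e1 : ∀ v, ∑ u ∈ Finset.univ.filter (fun u => v ∈ M u), q u =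
        ∑ u, if v ∈ M u then q u else 0 := fun v => Finset.sum_filter _ _
    rw [Finset.sum_congr rfl fun v _ => e1 v, Finset.sum_comm]
    refine Finset.sum_congr rfl fun g _ => ?_
    rw [← Finset.sum_filter, Finset.sum_const, nsmul_eq_mul, Finset.filter_mem_eq_inter,
      Finset.univ_inter, mul_comm]
  have e3 : ∀ v, Finset.univ.filter (fun u => v ∈ N G u) =
      Finset.univ.filter (fun u => G.Adj u v) := by
    intro v
    ext u
    simp [mem_N]
  have h1 := e (N G)
  have h2 := e (N2 G)
  rw [Finset.sum_sub_distrib]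
  unfold Yv Rv
  rw [Finset.sum_congr rfl fun v _ => by rw [← e3 v], h1, h2, ← Finset.sum_sub_distrib]
  exact Finset.sum_congr rfl fun g _ => by ring

theorem bad_ge (hq : ∀ v, 0 ≤ q v) (h1 : ∑ v, q v = 1)
    (hbad : ∀ g, q g ≠ 0 → (N2 G g).card < (N G g).card) :
    1 ≤ ∑ v, (Yv G q v - Rv G q v) := by
  rw [sum_loss, ← h1]
  refine Finset.sum_le_sum fun g _ => ?_
  by_cases hg : q g = 0
  · rw [hg, zero_mul]
  · have h2 : ((N2 G g).card : ℝ) + 1 ≤ ((N G g).card : ℝ) := by exact_mod_cast hbad g hg
    nlinarith [hq g]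

theorem skew_Z (hG : Oriented G) (v : V) :
    ∑ w ∈ Finset.univ.filter (fun u => ¬ Near G u v), q w * Sv G q v w = 0 :=
  skew_sum (fun u v => (mat G u v : ℝ)) (fun u v => by
    have := mat_skew G hG u v
    exact_mod_cast this) _ q

theorem choose_row {x : V} (hG : Oriented G) (hs : Sol G x q) (v : V)
    (hw : ∃ w, Near G x w ∧ ¬ Near G w v) :
    ∃ w, Near G x w ∧ ¬ Near G w v ∧ Sv G q v w ≤ 0 ∧ (q w ≠ 0 ∨ ∀ u, ¬ Near G u v → q u = 0) := by
  by_cases hall : ∀ u, ¬ Near G u v → q u = 0
  · obtain ⟨w, h1, h2⟩ := hw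
    refine ⟨w, h1, h2, le_of_eq ?_, Or.inr hall⟩
    refine Finset.sum_eq_zero fun u hu => ?_
    rw [hall u (Finset.mem_filter.1 hu).2, mul_zero]
  · push Not at hall
    obtain ⟨u₀, hu₀, hq₀⟩ := hall
    by_contra hcon
    push Not at hcon
    have hpos : ∀ w, ¬ Near G w v → q w ≠ 0 → 0 < Sv G q v w := by
      intro w h1 h2
      by_contra h3
      push Not at h3
      have h4 : Near G x w := by
        by_contra h
        exact h2 (hs.off w h)
      exact h2 (hcon w h4 h1 h3).1
    have h5 : ∀ w ∈ Finset.univ.filter (fun u => ¬ Near G u v), 0 ≤ q w * Sv G q v w := by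
      intro w hw
      by_cases h : q w = 0
      · rw [h, zero_mul]
      · exact mul_nonneg (hs.nonneg w) (hpos w (Finset.mem_filter.1 hw).2 h).le
    have h6 := (Finset.sum_eq_zero_iff_of_nonneg h5).1 (skew_Z hG v) u₀
      (Finset.mem_filter.2 ⟨Finset.mem_univ _, hu₀⟩)
    rcases mul_eq_zero.1 h6 with h | h
    · exact hq₀ h
    · exact absurd h (hpos u₀ hu₀ hq₀).ne'

omit [Fintype V] in
theorem mat_self (hG : Oriented G) (v : V) : (mat G v v : ℝ) = 0 := by
  have h := mat_skew G hG v v
  have h2 : mat G v v = 0 := by linarith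
  exact_mod_cast h2

theorem row_self (hG : Oriented G) {x : V} (hs : Sol G x q) {v : V} (hv : Near G x v)
    (hZ : ∀ u, ¬ Near G u v → q u = 0) : Yv G q v ≤ Rv G q v := by
  have h1 := row_use hG hs.nonneg v v
  have h2 : Ev G q v v = 0 := by
    refine Finset.sum_eq_zero fun u hu => ?_
    have h3 := mat_back G hG (Finset.mem_filter.1 hu).2
    rw [h3]
    push_cast
    ring
  have h3 : Sv G q v v = 0 := by
    refine Finset.sum_eq_zero fun u hu => ?_
    rw [hZ u (Finset.mem_filter.1 hu).2, mul_zero]
  have h4 : 0 ≤ Row G q v := hs.row v hv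
  rw [h2, h3, mat_self hG, zero_mul] at h1
  linarith

section threshold

omit [Fintype V] in
theorem near_three {x u : V} (h : Near G x u) : WithinDist G 3 x u :=
  ((near_iff G x u).2 h).mono (by omega)

omit [Fintype V] in
theorem near_three' {x u v : V} (h : Near G x u) (h' : G.Adj u v) : WithinDist G 3 x v :=
  ((near_iff G x u).2 h).step h'

/-- there is no alternating 4-cycle of missing and present pairs at distance at most three from
`x`: the missing pairs form a threshold graph there -/
def Threshold (G : Digraph V) (x : V) : Prop :=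
  ∀ a b c d, WithinDist G 3 x a → WithinDist G 3 x b → WithinDist G 3 x c → WithinDist G 3 x d →
    Miss G a b → Miss G c d → (G.Adj b c ∨ G.Adj c b) → (G.Adj d a ∨ G.Adj a d) → False

omit [Fintype V] in
theorem wild_miss {a b : V} (h : Wild G a b) :
    ∃ v v', G.Adj b v ∧ ¬ Near G a v ∧ G.Adj a v' ∧ ¬ Near G b v' ∧ Miss G v v' := by
  obtain ⟨hm, h1, h2⟩ := h
  unfold Cov at h1 h2
  push Not at h1 h2
  obtain ⟨v, h3, h4⟩ := h1
  obtain ⟨v', h5, h6⟩ := h2
  refine ⟨v, v', h3, h4, h5, h6, ?_, ?_, ?_⟩
  · rintro rfl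
    exact h4 (Or.inr (Or.inl h5))
  · intro h
    exact h6 (Or.inr (Or.inr ⟨v, h3, h⟩))
  · intro h
    exact h4 (Or.inr (Or.inr ⟨v', h5, h⟩))

omit [Fintype V] in
theorem no_wild {x : V} (hT : Threshold G x) {a b : V} (ha : Near G x a) (hb : Near G x b)
    (h : Wild G a b) : False := by
  obtain ⟨v, v', h1, -, h3, -, h5⟩ := wild_miss h
  exact hT a b v v' (near_three ha) (near_three hb) (near_three' hb h1) (near_three' ha h3) h.1 h5
    (Or.inl h1) (Or.inr h3)

/-- number of non-neighbours at distance at most three from `x` -/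
noncomputable def dg (G : Digraph V) (x a : V) : ℕ :=
  (Finset.univ.filter (fun b => WithinDist G 3 x b ∧ Miss G a b)).card

theorem dg_lt (hG : Oriented G) {x : V} (hT : Threshold G x) {w v : V} (hw : Near G x w)
    (hv : Near G x v) (h1 : Miss G w v) (h2 : ¬ Cov G v w)
    (h3 : ¬ Near G w v) : dg G x w < dg G x v := by
  unfold Cov at h2
  push Not at h2
  obtain ⟨v', h4, h5⟩ := h2
  have h6 : Miss G v v' := by
    refine ⟨?_, ?_, ?_⟩
    · rintro rfl
      exact h5 (Or.inl rfl)
    · intro h
      exact h5 (Or.inr (Or.inl h))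
    · intro h
      exact h3 (Or.inr (Or.inr ⟨v', h4, h⟩))
  have hv' : WithinDist G 3 x v' := near_three' hw h4
  have hsub : (Finset.univ.filter (fun b => WithinDist G 3 x b ∧ Miss G w b)).erase v ⊂
      (Finset.univ.filter (fun b => WithinDist G 3 x b ∧ Miss G v b)).erase w := by
    rw [Finset.ssubset_iff_of_subset]
    · refine ⟨v', ?_, ?_⟩
      · rw [Finset.mem_erase, Finset.mem_filter]
        refine ⟨?_, Finset.mem_univ _, hv', h6⟩
        rintro rfl
        exact hG _ _ h4 h4
      · rw [Finset.mem_erase, Finset.mem_filter]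
        rintro ⟨-, -, -, h⟩
        exact h.2.1 h4
    · intro c hc
      rw [Finset.mem_erase, Finset.mem_filter] at hc ⊢
      obtain ⟨hcv, -, hcx, hc⟩ := hc
      refine ⟨fun h => hc.1 h.symm, Finset.mem_univ _, hcx, fun h => hcv h.symm, ?_, ?_⟩
      · intro h
        exact hT c w v' v hcx (near_three hw) hv' (near_three hv) hc.symm h6.symm (Or.inl h4)
          (Or.inl h)
      · intro h
        exact hT c w v' v hcx (near_three hw) hv' (near_three hv) hc.symm h6.symm (Or.inl h4)
          (Or.inr h)
  have h7 := Finset.card_lt_card hsub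
  rw [Finset.card_erase_of_mem (Finset.mem_filter.2 ⟨Finset.mem_univ _, near_three hv, h1⟩),
    Finset.card_erase_of_mem (Finset.mem_filter.2 ⟨Finset.mem_univ _, near_three hw, h1.symm⟩)] at h7
  change dg G x w - 1 < dg G x v - 1 at h7
  omega

/-- the threshold case -/
theorem ball_threshold (hG : Oriented G) (x : V) (hT : Threshold G x) :
    ∃ g, Near G x g ∧ (N G g).card ≤ (N2 G g).card := by
  obtain ⟨q, hs⟩ := exists_sol G hG x
  by_contra hcon
  push Not at hcon
  have hbad : ∀ g, q g ≠ 0 → (N2 G g).card < (N G g).card := by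
    intro g hg
    refine hcon g ?_
    by_contra h
    exact hg (hs.off g h)
  have hge := bad_ge hs.nonneg hs.sum hbad
  have hEv : ∀ w v, Near G x w → ¬ Near G w v → Ev G q v w = 0 := by
    intro w v hxw hw
    refine Finset.sum_eq_zero fun u hu => ?_
    by_cases hu0 : q u = 0
    · rw [hu0, mul_zero]
    have hxu : Near G x u := by
      by_contra h
      exact hu0 (hs.off u h)
    rcases mat_Y G hG (Finset.mem_filter.1 hu).2 hw with h | h
    · rw [h]
      push_cast
      ring
    · exact (no_wild hT hxw hxu h).elim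
  have hxx : Near G x x := Or.inl rfl
  -- the general bound
  have hgen : ∀ v, Yv G q v - Rv G q v ≤ q v := by
    intro v
    by_cases hw : ∃ w, Near G x w ∧ ¬ Near G w v
    · obtain ⟨w, h1, h2, h3, -⟩ := choose_row hG hs v hw
      have h4 := row_use hG hs.nonneg w v
      have h5 : 0 ≤ Row G q w := hs.row w h1
      have h6 : (mat G w v : ℝ) ≤ 1 := by exact_mod_cast mat_le G w v
      rw [hEv w v h1 h2] at h4
      nlinarith [hs.nonneg v]
    · push Not at hw
      have h1 := row_self hG hs (hw x hxx) (fun u hu => hs.off u fun h => hu (hw u h))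
      linarith [hs.nonneg v]
  -- a member of the support with the smallest number of non-neighbours
  have hne : (Finset.univ.filter (fun v => q v ≠ 0)).Nonempty := by
    rw [Finset.nonempty_iff_ne_empty]
    intro h
    have h0 : ∀ v, q v = 0 := by
      intro v
      by_contra hv
      have : v ∈ Finset.univ.filter (fun v => q v ≠ 0) :=
        Finset.mem_filter.2 ⟨Finset.mem_univ _, hv⟩
      rw [h] at this
      exact absurd this (Finset.notMem_empty _)
    have h1 := hs.sum
    rw [Finset.sum_eq_zero fun v _ => h0 v] at h1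
    exact zero_ne_one h1
  obtain ⟨b, hb, hmin⟩ := Finset.exists_min_image _ (dg G x) hne
  have hb0 : q b ≠ 0 := (Finset.mem_filter.1 hb).2
  have hbx : Near G x b := by
    by_contra h
    exact hb0 (hs.off b h)
  have hbb : Yv G q b - Rv G q b ≤ 0 := by
    by_cases hall : ∀ u, ¬ Near G u b → q u = 0
    · have := row_self hG hs hbx hall
      linarith
    · have hall' := hall
      push Not at hall'
      obtain ⟨u, hu1, hu2⟩ := hall'
      have hux : Near G x u := by
        by_contra h
        exact hu2 (hs.off u h)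
      obtain ⟨w, h1, h2, h3, h4⟩ := choose_row hG hs b ⟨u, hux, hu1⟩
      have hw0 : q w ≠ 0 := by
        rcases h4 with h4 | h4
        · exact h4
        · exact absurd h4 hall
      have h5 := row_use hG hs.nonneg w b
      have h6 : 0 ≤ Row G q w := hs.row w h1
      rw [hEv w b h1 h2] at h5
      have h7 : (mat G w b : ℝ) ≤ 0 := by
        rcases mat_Z G hG h2 with h | h
        · exact_mod_cast h
        · exfalso
          have h8 := dg_lt hG hT h1 hbx h.1 h.2 h2
          have h9 := hmin w (Finset.mem_filter.2 ⟨Finset.mem_univ _, hw0⟩)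
          omega
      nlinarith [hs.nonneg b]
  have hsum : ∑ v, (Yv G q v - Rv G q v) ≤ ∑ v, (if v = b then 0 else q v) := by
    refine Finset.sum_le_sum fun v _ => ?_
    split_ifs with h
    · rw [h]
      exact hbb
    · exact hgen v
  have hsum2 : ∑ v, (if v = b then 0 else q v) = 1 - q b := by
    have h1 : ∀ v, (if v = b then 0 else q v) = q v - (if v = b then q v else 0) := by
      intro v
      split_ifs <;> ring
    rw [Finset.sum_congr rfl fun v _ => h1 v, Finset.sum_sub_distrib, hs.sum,
      Finset.sum_ite_eq' Finset.univ b q, if_pos (Finset.mem_univ _)]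
  have : 0 < q b := lt_of_le_of_ne (hs.nonneg b) (Ne.symm hb0)
  linarith

end threshold

end Pool.Agent.H17.SN
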