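import Mathlib
import Pool.Agent.H17.SN.Ball3

/-!
MP_2bbbb5: a Seymour vertex within distance two when every vertex has at most one non-neighbour
(helper17).
-/

set_option autoImplicit false

namespace Pool.Agent.H17.SN

open Classical Pool.Agent.H39.Burckel

/-- at distance at most three from `x` every vertex has at most one non-neighbour -/
def Matching {V : Type} (G : Digraph V) (x : V) : Prop :=
  ∀ a b c, WithinDist G 3 x a → WithinDist G 3 x b → WithinDist G 3 x c →
    Miss G a b → Miss G a c → b = c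

section

variable {V : Type} {G : Digraph V} {x : V}

theorem w2 {u : V} (h : Near G x u) : WithinDist G 3 x u :=
  ((near_iff G x u).2 h).mono (by omega)

theorem w3 {u v : V} (h : Near G x u) (h' : G.Adj u v) : WithinDist G 3 x v :=
  ((near_iff G x u).2 h).step h'

/-- `a` misses `b`, `b → v`, and `v` is not reached from `a` -/
structure Bd (G : Digraph V) (x a b v : V) : Prop where
  na : Near G x a
  nb : Near G x b
  wild : Wild G a b
  adj : G.Adj b v
  far : ¬ Near G a v

theorem Bd.w {a b v : V} (h : Bd G x a b v) : WithinDist G 3 x v := w3 h.nb h.adj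

theorem adj_of_ne (hM : Matching G x) {a b c : V} (ha : WithinDist G 3 x a)
    (hb : WithinDist G 3 x b) (hc : WithinDist G 3 x c) (h : Miss G a b) (h1 : c ≠ a)
    (h2 : c ≠ b) : G.Adj a c ∨ G.Adj c a := by
  by_contra hcon
  push Not at hcon
  exact h2 (hM a b c ha hb hc h ⟨h1.symm, hcon.1, hcon.2⟩).symm

theorem bd_back (hG : Oriented G) (hM : Matching G x) {a b v : V} (h : Bd G x a b v) :
    G.Adj v a := by
  rcases adj_of_ne hM (w2 h.na) (w2 h.nb) h.w h.wild.1 (c := v) (fun e => h.far (Or.inl e)) (by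
      rintro rfl
      exact hG _ _ h.adj h.adj) with h3 | h3
  · exact absurd (Or.inr (Or.inl h3)) h.far
  · exact h3

theorem bd_pair {a b v v' : V} (h : Bd G x a b v) (h' : Bd G x b a v') : Miss G v v' := by
  refine ⟨?_, ?_, ?_⟩
  · rintro rfl
    exact h.far (Or.inr (Or.inl h'.adj))
  · intro h1
    exact h'.far (Or.inr (Or.inr ⟨v, h.adj, h1⟩))
  · intro h1
    exact h.far (Or.inr (Or.inr ⟨v', h'.adj, h1⟩))

theorem exists_bd {a b : V} (ha : Near G x a) (hb : Near G x b) (h : Wild G a b) :
    ∃ v, Bd G x a b v := by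
  have h1 := h.2.1
  unfold Cov at h1
  push Not at h1
  obtain ⟨v, h3, h4⟩ := h1
  exact ⟨v, ha, hb, h, h3, h4⟩

theorem Bd.swap {a b v : V} (h : Bd G x a b v) : ∃ v', Bd G x b a v' :=
  exists_bd h.nb h.na h.wild.symm

theorem bd_unique (hM : Matching G x) {a b v w : V} (h : Bd G x a b v) (h' : Bd G x a b w) :
    v = w := by
  obtain ⟨v', hv'⟩ := h.swap
  exact hM v' v w hv'.w h.w h'.w (bd_pair h hv').symm (bd_pair h' hv').symm

theorem bd_partner (hM : Matching G x) {a b c v w : V} (h : Bd G x a b v) (h' : Bd G x c b w) :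
    a = c :=
  hM b a c (w2 h.nb) (w2 h.na) (w2 h'.na) h.wild.1.symm h'.wild.1.symm

theorem bd_partner' (hM : Matching G x) {a b d v w : V} (h : Bd G x a b v) (h' : Bd G x a d w) :
    b = d :=
  hM a b d (w2 h.na) (w2 h.nb) (w2 h'.nb) h.wild.1 h'.wild.1

theorem bd_inj (hG : Oriented G) (hM : Matching G x) {a b c d v : V} (h : Bd G x a b v)
    (h' : Bd G x c d v) : c = a := by
  obtain ⟨v', hv'⟩ := h.swap
  obtain ⟨w', hw'⟩ := h'.swap
  have e : v' = w' := hM v v' w' h.w hv'.w hw'.w (bd_pair h hv') (bd_pair h' hw')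
  subst e
  by_contra hca
  -- `c ≠ b`
  have hcb : c ≠ b := by
    rintro rfl
    exact hG _ _ (bd_back hG hM hv') hw'.adj
  -- `b → c`
  have h1 : G.Adj b c ∨ G.Adj c b :=
    adj_of_ne hM (w2 h.nb) (w2 h.na) (w2 h'.na) h.wild.1.symm hcb hca
  rcases h1 with h1 | h1
  · exact hv'.far (Or.inr (Or.inr ⟨c, h1, hw'.adj⟩))
  · exact h'.far (Or.inr (Or.inr ⟨b, h1, h.adj⟩))

theorem mat_Z' (hG : Oriented G) (hM : Matching G x) {w v : V} (hxw : Near G x w)
    (hxv : Near G x v) (hw : ¬ Near G w v) : mat G w v ≤ 0 := by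
  rcases mat_Z G hG hw with h | ⟨h1, h2⟩
  · exact h
  · exfalso
    unfold Cov at h2
    push Not at h2
    obtain ⟨v', h3, h4⟩ := h2
    have h5 : v' ≠ v := fun e => h4 (Or.inl e)
    have h6 : v' ≠ w := by
      rintro rfl
      exact hG _ _ h3 h3
    rcases adj_of_ne hM (w2 hxv) (w2 hxw) (w3 hxw h3) h1.symm h5 h6 with h | h
    · exact h4 (Or.inr (Or.inl h))
    · exact hw (Or.inr (Or.inr ⟨v', h3, h⟩))

end

variable {V : Type} [Fintype V] {G : Digraph V} {q : V → ℝ}

/-- the excess term -/
theorem ev_cases {x : V} (hG : Oriented G) (hM : Matching G x) (hs : Sol G x q) {w v : V}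
    (hxw : Near G x w) (hw : ¬ Near G w v) :
    Ev G q v w = 0 ∨ ∃ u, Bd G x w u v ∧ Ev G q v w = q u := by
  have hterm : ∀ y, G.Adj y v → (∀ u, Bd G x w u v → y ≠ u) → (1 + (mat G w y : ℝ)) * q y = 0 := by
    intro y hy hne
    by_cases hy0 : q y = 0
    · rw [hy0, mul_zero]
    have hxy : Near G x y := by
      by_contra h
      exact hy0 (hs.off y h)
    rcases mat_Y G hG hy hw with h | h
    · rw [h]
      push_cast
      ring
    · exact absurd rfl (hne y ⟨hxw, hxy, h, hy, hw⟩)
  by_cases hex : ∃ u, Bd G x w u v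
  · right
    obtain ⟨u, hu⟩ := hex
    refine ⟨u, hu, ?_⟩
    unfold Ev
    rw [Finset.sum_eq_single u]
    · rw [mat_wild G hu.wild]
      push_cast
      ring
    · intro y hy hne
      refine hterm y (Finset.mem_filter.1 hy).2 fun u' hu' => ?_
      rw [← bd_partner' hM hu hu']
      exact hne
    · intro h
      exact (h (Finset.mem_filter.2 ⟨Finset.mem_univ _, hu.adj⟩)).elim
  · left
    push Not at hex
    exact Finset.sum_eq_zero fun u hu =>
      hterm u (Finset.mem_filter.1 hu).2 fun u' hu' => absurd hu' (hex u')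

/-- total excess at `v` -/
noncomputable def ex (G : Digraph V) (q : V → ℝ) (x v : V) : ℝ :=
  ∑ b ∈ Finset.univ.filter (fun b => ∃ a, Bd G x a b v), q b

theorem ex_nonneg {x : V} (hq : ∀ v, 0 ≤ q v) (v : V) : 0 ≤ ex G q x v :=
  Finset.sum_nonneg fun b _ => hq b

theorem ex_ge {x : V} (hq : ∀ v, 0 ≤ q v) {a b v : V} (h : Bd G x a b v) : q b ≤ ex G q x v :=
  Finset.single_le_sum (f := q) (fun b _ => hq b) (Finset.mem_filter.2 ⟨Finset.mem_univ _, a, h⟩)

theorem ex_eq {x : V} (hG : Oriented G) (hM : Matching G x) {a b v : V} (h : Bd G x a b v) :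
    ex G q x v = q b := by
  unfold ex
  rw [Finset.sum_eq_single b]
  · intro c hc hne
    obtain ⟨-, d, hd⟩ := Finset.mem_filter.1 hc
    have h1 := bd_inj hG hM h hd
    subst h1
    exact absurd (bd_partner' hM hd h) hne
  · intro hb
    exact absurd (Finset.mem_filter.2 ⟨Finset.mem_univ _, a, h⟩) hb

theorem sum_ex {x : V} (hM : Matching G x) (hq : ∀ v, 0 ≤ q v) (h1 : ∑ v, q v = 1) :
    ∑ v, ex G q x v ≤ 1 ∧ (∑ v, ex G q x v = 1 → ∀ b, q b ≠ 0 → ∃ a v, Bd G x a b v) := by
  have e1 : ∑ v, ex G q x v = ∑ b, ∑ v, if ∃ a, Bd G x a b v then q b else 0 := by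
    unfold ex
    rw [Finset.sum_congr rfl fun v _ => Finset.sum_filter _ _, Finset.sum_comm]
  have e2 : ∀ b, (∑ v, if ∃ a, Bd G x a b v then q b else 0) ≤
      if ∃ a v, Bd G x a b v then q b else 0 := by
    intro b
    by_cases h : ∃ a v, Bd G x a b v
    · rw [if_pos h]
      obtain ⟨a, v, hb⟩ := h
      rw [Finset.sum_eq_single v]
      · rw [if_pos ⟨a, hb⟩]
      · intro w _ hne
        rw [if_neg]
        rintro ⟨c, hc⟩
        have h2 : a = c := bd_partner hM hb hc
        subst h2
        exact hne (bd_unique hM hc hb)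
      · intro h
        exact absurd (Finset.mem_univ _) h
    · rw [if_neg h]
      push Not at h
      exact le_of_eq (Finset.sum_eq_zero fun v _ => if_neg (fun ⟨a, ha⟩ => h a v ha))
  have e3 : ∀ b, (if ∃ a v, Bd G x a b v then q b else 0) ≤ q b := by
    intro b
    split_ifs
    · exact le_refl _
    · exact hq b
  refine ⟨?_, ?_⟩
  · rw [e1, ← h1]
    exact Finset.sum_le_sum fun b _ => (e2 b).trans (e3 b)
  · intro heq b hb
    by_contra hcon
    have h2 : ∑ b, (if ∃ a v, Bd G x a b v then q b else 0) = ∑ b, q b := by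
      apply le_antisymm (Finset.sum_le_sum fun b _ => e3 b)
      rw [h1, ← heq, e1]
      exact Finset.sum_le_sum fun b _ => e2 b
    have h3 := (Finset.sum_eq_sum_iff_of_le fun b _ => e3 b).1 h2 b (Finset.mem_univ b)
    rw [if_neg hcon] at h3
    exact hb h3.symm

/-- the general bound -/
theorem loss_le {x : V} (hG : Oriented G) (hM : Matching G x) (hs : Sol G x q) (v : V) :
    Yv G q v - Rv G q v ≤ ex G q x v := by
  by_cases hw : ∃ w, Near G x w ∧ ¬ Near G w v
  · obtain ⟨w, h1, h2, h3, -⟩ := choose_row hG hs v hw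
    have h4 := row_use hG hs.nonneg w v
    have h5 : 0 ≤ Row G q w := hs.row w h1
    have h6 : (mat G w v : ℝ) * q v ≤ 0 := by
      by_cases hv0 : q v = 0
      · rw [hv0, mul_zero]
      have hxv : Near G x v := by
        by_contra h
        exact hv0 (hs.off v h)
      have h6 : (mat G w v : ℝ) ≤ 0 := by exact_mod_cast mat_Z' hG hM h1 hxv h2
      exact mul_nonpos_of_nonpos_of_nonneg h6 (hs.nonneg v)
    have h7 : Ev G q v w ≤ ex G q x v := by
      rcases ev_cases hG hM hs h1 h2 with h | ⟨u, hu, h⟩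
      · rw [h]
        exact ex_nonneg hs.nonneg v
      · rw [h]
        exact ex_ge hs.nonneg hu
    linarith
  · push Not at hw
    have h1 := row_self hG hs (hw x (Or.inl rfl)) (fun u hu => hs.off u fun h => hu (hw u h))
    have h2 := ex_nonneg (G := G) (x := x) hs.nonneg v
    linarith

/-- The analysis of one wild pair in the case of equality. -/
theorem pair_facts {x a b v : V} (hG : Oriented G) (hM : Matching G x) (hs : Sol G x q)
    (hB : Bd G x a b v) (hloss : Yv G q v - Rv G q v = q b) (hb : q b ≠ 0) :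
    (∀ u, Near G x u → ¬ Near G u v → u ≠ a → q b ≤ (mat G u a : ℝ) * q a) ∧
    q v = 0 ∧ (Near G x v → q b + Row G q v ≤ q a) := by
  have hbpos : 0 < q b := lt_of_le_of_ne (hs.nonneg b) (Ne.symm hb)
  have hva := bd_back hG hM hB
  -- K1
  have K1 : ∀ u, Near G x u → ¬ Near G u v → u ≠ a → q b + Row G q u ≤ Sv G q v u := by
    intro u hu huv hua
    have h4 := row_use hG hs.nonneg u v
    have h6 : (mat G u v : ℝ) * q v ≤ 0 := by
      by_cases hv0 : q v = 0
      · rw [hv0, mul_zero]
      have hxv : Near G x v := by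
        by_contra h
        exact hv0 (hs.off v h)
      have h6 : (mat G u v : ℝ) ≤ 0 := by exact_mod_cast mat_Z' hG hM hu hxv huv
      exact mul_nonpos_of_nonpos_of_nonneg h6 (hs.nonneg v)
    have h7 : Ev G q v u = 0 := by
      rcases ev_cases hG hM hs hu huv with h | ⟨w, hw, h⟩
      · exact h
      · exact absurd (bd_inj hG hM hB hw) hua
    rw [h7] at h4
    linarith
  have K1a : Row G q a + q v ≤ Sv G q v a := by
    have h4 := row_use hG hs.nonneg a v
    have h6 : (mat G a v : ℝ) = -1 := by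
      rw [mat_back G hG hva]
      push_cast
      ring
    have h7 : Ev G q v a ≤ q b := by
      rcases ev_cases hG hM hs hB.na hB.far with h | ⟨w, hw, h⟩
      · rw [h]
        exact hs.nonneg b
      · rw [h, bd_partner' hM hw hB]
    rw [h6] at h4
    linarith
  have hS0 : ∀ u, Near G x u → ¬ Near G u v → 0 ≤ Sv G q v u := by
    intro u hu huv
    by_cases hua : u = a
    · subst hua
      have h2 : 0 ≤ Row G q u := hs.row u hu
      linarith [hs.nonneg v]
    · have h1 := K1 u hu huv hua
      have h2 : 0 ≤ Row G q u := hs.row u hu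
      linarith
  have hterm : ∀ w ∈ Finset.univ.filter (fun u => ¬ Near G u v), 0 ≤ q w * Sv G q v w := by
    intro w hw
    by_cases h : Near G x w
    · exact mul_nonneg (hs.nonneg w) (hS0 w h (Finset.mem_filter.1 hw).2)
    · rw [hs.off w h, zero_mul]
  have hzero := (Finset.sum_eq_zero_iff_of_nonneg hterm).1 (skew_Z hG v)
  have hq0 : ∀ u, ¬ Near G u v → u ≠ a → q u = 0 := by
    intro u hu hua
    by_cases h : Near G x u
    · have h1 := K1 u h hu hua
      have h2 : 0 ≤ Row G q u := hs.row u h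
      rcases mul_eq_zero.1 (hzero u (Finset.mem_filter.2 ⟨Finset.mem_univ _, hu⟩)) with h3 | h3
      · exact h3
      · rw [h3] at h1
        linarith
    · exact hs.off u h
  have hS : ∀ r, Sv G q v r = (mat G r a : ℝ) * q a := by
    intro r
    unfold Sv
    rw [Finset.sum_eq_single a]
    · intro u hu hua
      rw [hq0 u (Finset.mem_filter.1 hu).2 hua, mul_zero]
    · intro h
      exact (h (Finset.mem_filter.2 ⟨Finset.mem_univ _, hB.far⟩)).elim
  refine ⟨?_, ?_, ?_⟩
  · intro u hu huv hua
    have h1 := K1 u hu huv hua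
    have h2 : 0 ≤ Row G q u := hs.row u hu
    rw [hS] at h1
    linarith
  · have h2 : 0 ≤ Row G q a := hs.row a hB.na
    rw [hS, mat_self hG, zero_mul] at K1a
    linarith [hs.nonneg v]
  · intro hv
    have h1 := row_use hG hs.nonneg v v
    have h2 : Ev G q v v = 0 := by
      refine Finset.sum_eq_zero fun u hu => ?_
      rw [mat_back G hG (Finset.mem_filter.1 hu).2]
      push_cast
      ring
    have h3 : (mat G v a : ℝ) = 1 := by
      rw [mat_arc G hva]
      push_cast
      ring
    rw [h2, hS, h3, mat_self hG, zero_mul] at h1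
    linarith

/-- the matching case -/
theorem ball_matching (hG : Oriented G) (x : V) (hM : Matching G x) :
    ∃ g, Near G x g ∧ (N G g).card ≤ (N2 G g).card := by
  obtain ⟨q, hs⟩ := exists_sol G hG x
  by_contra hcon
  push Not at hcon
  have hnear : ∀ g, q g ≠ 0 → Near G x g := by
    intro g hg
    by_contra h
    exact hg (hs.off g h)
  have hbad : ∀ g, q g ≠ 0 → (N2 G g).card < (N G g).card := fun g hg => hcon g (hnear g hg)
  have hge := bad_ge hs.nonneg hs.sum hbad
  have hle := fun v => loss_le hG hM hs v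
  obtain ⟨hex, hex2⟩ := sum_ex hM hs.nonneg hs.sum
  have hle' : ∑ v, (Yv G q v - Rv G q v) ≤ ∑ v, ex G q x v := Finset.sum_le_sum fun v _ => hle v
  have hex1 : ∑ v, ex G q x v = 1 := le_antisymm hex (hge.trans hle')
  have hloss : ∀ v, Yv G q v - Rv G q v = ex G q x v := fun v =>
    (Finset.sum_eq_sum_iff_of_le fun v _ => hle v).1 (le_antisymm hle' (hex.trans hge)) v
      (Finset.mem_univ v)
  have hsup := hex2 hex1
  have hF : ∀ {a b v : V}, Bd G x a b v → q b ≠ 0 →
      (∀ u, Near G x u → ¬ Near G u v → u ≠ a → q b ≤ (mat G u a : ℝ) * q a) ∧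
      q v = 0 ∧ (Near G x v → q b + Row G q v ≤ q a) := by
    intro a b v hB hb
    exact pair_facts hG hM hs hB (by rw [hloss, ex_eq hG hM hB]) hb
  have hxx : Near G x x := Or.inl rfl
  -- Step 1
  have h1 : ∀ a b v, Bd G x a b v → q b ≠ 0 → (Near G x v → q b < q a) ∧ (a ≠ x → q b ≤ q a) := by
    intro a b v hB hb
    obtain ⟨K1, K2, K3⟩ := hF hB hb
    have hA : Near G x v → q b < q a := by
      intro hv
      have h2 := K3 hv
      have h6 : 0 < Row G q v := hs.strict v hv K2
      linarith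
    refine ⟨hA, ?_⟩
    intro hax
    by_cases hv : Near G x v
    · exact (hA hv).le
    · have h2 := K1 x hxx hv (Ne.symm hax)
      have h3 : (mat G x a : ℝ) ≤ 1 := by exact_mod_cast mat_le G x a
      nlinarith [hs.nonneg a]
  -- Step 2
  have h2 : ∀ a b v, Bd G x a b v → q b ≠ 0 → a = x ∨ b = x := by
    intro a b v hB hb
    by_contra hne
    push Not at hne
    have hbpos : 0 < q b := lt_of_le_of_ne (hs.nonneg b) (Ne.symm hb)
    have h3 := h1 a b v hB hb
    have h4 := h3.2 hne.1
    have ha : q a ≠ 0 := by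
      intro h
      linarith
    obtain ⟨v', hB'⟩ := hB.swap
    have h5 := h1 b a v' hB' ha
    have h6 := h5.2 hne.2
    have hv : ¬ Near G x v := fun h => by
      have := h3.1 h
      linarith
    have hv' : ¬ Near G x v' := fun h => by
      have := h5.1 h
      linarith
    have h7 := (hF hB' ha).1 x hxx hv' (Ne.symm hne.2)
    have h8 : 0 < (mat G x b : ℝ) := by
      by_contra h
      push Not at h
      have h9 : 0 < q a := lt_of_le_of_ne (hs.nonneg a) (Ne.symm ha)
      nlinarith
    have h9 : G.Adj b x ∨ G.Adj x b :=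
      adj_of_ne hM (w2 hB.nb) (w2 hB.na) (w2 hxx) hB.wild.1.symm (Ne.symm hne.2) (Ne.symm hne.1)
    rcases h9 with h9 | h9
    · rw [mat_back G hG h9] at h8
      norm_num at h8
    · exact hv (Or.inr (Or.inr ⟨b, h9, hB.adj⟩))
  -- Step 3: `x` has a wild partner
  obtain ⟨b₀, hb₀⟩ : ∃ b, q b ≠ 0 := by
    by_contra h
    push Not at h
    have h3 := hs.sum
    rw [Finset.sum_eq_zero fun v _ => h v] at h3
    exact zero_ne_one h3
  obtain ⟨y, v₂, hy⟩ : ∃ y v, Bd G x x y v := by
    obtain ⟨a, v, hB⟩ := hsup b₀ hb₀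
    rcases h2 a b₀ v hB hb₀ with h | h
    · subst h
      exact ⟨b₀, v, hB⟩
    · subst h
      obtain ⟨v', hv'⟩ := hB.swap
      exact ⟨a, v', hv'⟩
  have hxy : x ≠ y := hy.wild.1.1
  have hsupp : ∀ b, b ≠ x → b ≠ y → q b = 0 := by
    intro b hbx hby
    by_contra hb
    obtain ⟨a, v, hB⟩ := hsup b hb
    rcases h2 a b v hB hb with h | h
    · subst h
      exact hby (bd_partner' hM hB hy)
    · exact hbx h
  have hsum : ∀ f : V → ℝ, ∑ u, f u * q u = f x * q x + f y * q y := by
    intro f
    rw [← Finset.sum_subset (Finset.subset_univ {x, y})]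
    · rw [Finset.sum_pair hxy]
    · intro u _ hu
      rw [Finset.mem_insert, Finset.mem_singleton, not_or] at hu
      rw [hsupp u hu.1 hu.2, mul_zero]
  obtain ⟨v₁, hv₁⟩ := hy.swap
  have hback := bd_back hG hM hv₁
  have hyx : Near G x y := hy.nb
  have hqx : q x ≠ 0 := by
    intro h
    have h3 : 0 < Row G q x := hs.strict x hxx h
    unfold Row at h3
    rw [hsum, mat_wild G hy.wild, h] at h3
    simp at h3
  have hqy : q y ≠ 0 := by
    intro h
    have h3 : 0 < Row G q y := hs.strict y hyx h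
    unfold Row at h3
    rw [hsum, mat_wild G hv₁.wild, h] at h3
    simp at h3
  have hlt : q x < q y := (h1 y x v₁ hv₁ hqx).1 (Or.inr (Or.inl hv₁.adj))
  have hxpos : 0 < q x := lt_of_le_of_ne (hs.nonneg x) (Ne.symm hqx)
  -- a second out-neighbour of `x`
  have hxb := hbad x hqx
  have hyN2 : y ∈ N2 G x := (mem_N2 G).2 ⟨hxy.symm, hy.wild.1.2.1, v₁, hv₁.adj, hback⟩
  have h3 : 1 ≤ (N2 G x).card := Finset.card_pos.2 ⟨y, hyN2⟩
  obtain ⟨u, hu, huv⟩ := Finset.exists_mem_ne (s := N G x) (by omega) v₁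
  rw [mem_N] at hu
  have hexu : ex G q x u = 0 := by
    refine Finset.sum_eq_zero fun b hb => ?_
    obtain ⟨-, a, hB⟩ := Finset.mem_filter.1 hb
    by_contra hq
    have hb2 : b = x ∨ b = y := by
      by_contra h
      push Not at h
      exact hq (hsupp b h.1 h.2)
    rcases hb2 with rfl | rfl
    · have h4 : a = y := bd_partner hM hB hv₁
      subst h4
      exact huv (bd_unique hM hB hv₁)
    · have h4 : a = x := bd_partner hM hB hy
      subst h4
      exact hB.far (Or.inr (Or.inl hu))
  have h4 := hloss u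
  rw [hexu] at h4
  have hYu : Yv G q u = q x + (if G.Adj y u then q y else 0) := by
    unfold Yv
    rw [Finset.sum_filter]
    have h5 := hsum (fun w => if G.Adj w u then 1 else 0)
    have h6 : ∀ w, (if G.Adj w u then q w else 0) = (if G.Adj w u then (1 : ℝ) else 0) * q w := by
      intro w
      split_ifs <;> ring
    rw [Finset.sum_congr rfl fun w _ => h6 w, h5, if_pos hu]
    split_ifs <;> ring
  have hRu : Rv G q u = (if u ∈ N2 G y then q y else 0) := by
    unfold Rv
    rw [Finset.sum_filter]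
    have h5 := hsum (fun w => if u ∈ N2 G w then 1 else 0)
    have h6 : ∀ w, (if u ∈ N2 G w then q w else 0) = (if u ∈ N2 G w then (1 : ℝ) else 0) * q w := by
      intro w
      split_ifs <;> ring
    have h7 : ¬ u ∈ N2 G x := fun h => ((mem_N2 G).1 h).2.1 hu
    rw [Finset.sum_congr rfl fun w _ => h6 w, h5, if_neg h7]
    split_ifs <;> ring
  rw [hYu, hRu] at h4
  by_cases h5 : G.Adj y u
  · have h6 : ¬ u ∈ N2 G y := fun h => ((mem_N2 G).1 h).2.1 h5
    rw [if_pos h5, if_neg h6] at h4
    linarith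
  · rw [if_neg h5] at h4
    by_cases h6 : u ∈ N2 G y
    · rw [if_pos h6] at h4
      linarith
    · rw [if_neg h6] at h4
      linarith

end Pool.Agent.H17.SN
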