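import Mathlib
import Pool.Agent.H17.SN.Ball4

/-!
MP_2bbbb5: the approximate form, with an error `d ^ 2` if every vertex has at most `d`
non-neighbours (helper17).
-/

set_option autoImplicit false

namespace Pool.Agent.H17.SN

open Classical Pool.Agent.H39.Burckel

variable {V : Type} [Fintype V] {G : Digraph V} {q : V → ℝ}

/-- `a` misses `b`, is not reached by ... the pair costs `q b` at `b` -/
def Th3 (G : Digraph V) (x a b : V) : Prop :=
  Near G x a ∧ Near G x b ∧ Miss G a b ∧ ¬ Near G a b ∧ Cov G a b ∧ ¬ Cov G b a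

/-- the general bound -/
theorem loss_gen {x : V} (hG : Oriented G) (hs : Sol G x q) (v : V) :
    Yv G q v - Rv G q v ≤ ex G q x v + (if ∃ a, Th3 G x a v then q v else 0) := by
  have hexn := ex_nonneg (G := G) (x := x) hs.nonneg v
  have hTn : 0 ≤ (if ∃ a, Th3 G x a v then q v else 0) := by
    split_ifs
    · exact hs.nonneg v
    · exact le_refl _
  by_cases hw : ∃ w, Near G x w ∧ ¬ Near G w v
  · obtain ⟨w, h1, h2, h3, -⟩ := choose_row hG hs v hw
    have h4 := row_use hG hs.nonneg w v
    have h5 : 0 ≤ Row G q w := hs.row w h1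
    have h6 : (mat G w v : ℝ) * q v ≤ (if ∃ a, Th3 G x a v then q v else 0) := by
      by_cases hv0 : q v = 0
      · rw [hv0, mul_zero]
        split_ifs <;> exact le_refl _
      have hxv : Near G x v := by
        by_contra h
        exact hv0 (hs.off v h)
      rcases mat_Z G hG h2 with h6 | h6
      · have h7 : (mat G w v : ℝ) ≤ 0 := by exact_mod_cast h6
        exact (mul_nonpos_of_nonpos_of_nonneg h7 (hs.nonneg v)).trans hTn
      · by_cases h8 : Cov G w v
        · rw [if_pos ⟨w, h1, hxv, h6.1, h2, h8, h6.2⟩]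
          have h9 : (mat G w v : ℝ) ≤ 1 := by exact_mod_cast mat_le G w v
          nlinarith [hs.nonneg v]
        · rw [mat_wild G ⟨h6.1, h8, h6.2⟩]
          push_cast
          rw [zero_mul]
          exact hTn
    have h7 : Ev G q v w ≤ ex G q x v := by
      unfold Ev ex
      rw [Finset.sum_filter, Finset.sum_filter]
      refine Finset.sum_le_sum fun u _ => ?_
      by_cases hu0 : q u = 0
      · rw [hu0, mul_zero]
        split_ifs <;> exact le_refl _
      have hxu : Near G x u := by
        by_contra h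
        exact hu0 (hs.off u h)
      have hr : 0 ≤ (if ∃ a, Bd G x a u v then q u else 0) := by
        split_ifs
        · exact hs.nonneg u
        · exact le_refl _
      by_cases hu : G.Adj u v
      · rw [if_pos hu]
        rcases mat_Y G hG hu h2 with h | h
        · rw [h]
          push_cast
          linarith
        · rw [if_pos ⟨w, h1, hxu, h, hu, h2⟩, mat_wild G h]
          push_cast
          linarith
      · rw [if_neg hu]
        exact hr
    linarith
  · push Not at hw
    have h1 := row_self hG hs (hw x (Or.inl rfl)) (fun u hu => hs.off u fun h => hu (hw u h))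
    linarith

/-- the number of vertices charged to `b` -/
theorem charge {x : V} {d : ℕ} (hd : ∀ a, WithinDist G 3 x a → dg G x a ≤ d) (b : V)
    (hb : Near G x b) :
    (Finset.univ.filter (fun v => ∃ a, Bd G x a b v)).card +
      (if ∃ a, Th3 G x a b then 1 else 0) ≤ d ^ 2 := by
  set K : Finset V := Finset.univ.filter (fun a => Near G x a ∧ Wild G a b) with hK
  have hKd : K.card + (if ∃ a, Th3 G x a b then 1 else 0) ≤ d := by
    have h1 := hd b (near_three hb)
    unfold dg at h1
    have hsub : K ⊆ Finset.univ.filter (fun c => WithinDist G 3 x c ∧ Miss G b c) := by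
      intro a ha
      rw [hK, Finset.mem_filter] at ha
      exact Finset.mem_filter.2 ⟨Finset.mem_univ _, near_three ha.2.1, ha.2.2.1.symm⟩
    split_ifs with hT
    · obtain ⟨a, h2, h3, h4, h5, h6, h7⟩ := hT
      have ha : a ∉ K := by
        rw [hK, Finset.mem_filter]
        rintro ⟨-, -, h8⟩
        exact h8.2.1 h6
      have h8 : insert a K ⊆ Finset.univ.filter (fun c => WithinDist G 3 x c ∧ Miss G b c) := by
        rw [Finset.insert_subset_iff]
        exact ⟨Finset.mem_filter.2 ⟨Finset.mem_univ _, near_three h2, h4.symm⟩, hsub⟩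
      have h9 := Finset.card_le_card h8
      rw [Finset.card_insert_of_notMem ha] at h9
      omega
    · have h9 := Finset.card_le_card hsub
      omega
  have hV : (Finset.univ.filter (fun v => ∃ a, Bd G x a b v)).card ≤ K.card * d := by
    have hsub : Finset.univ.filter (fun v => ∃ a, Bd G x a b v) ⊆
        K.biUnion (fun a => Finset.univ.filter (fun v => Bd G x a b v)) := by
      intro v hv
      obtain ⟨-, a, ha⟩ := Finset.mem_filter.1 hv
      rw [Finset.mem_biUnion]
      exact ⟨a, Finset.mem_filter.2 ⟨Finset.mem_univ _, ha.na, ha.wild⟩,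
        Finset.mem_filter.2 ⟨Finset.mem_univ _, ha⟩⟩
    refine (Finset.card_le_card hsub).trans (Finset.card_biUnion_le_card_mul _ _ _ ?_)
    intro a ha
    rw [hK, Finset.mem_filter] at ha
    obtain ⟨v', hv'⟩ := exists_bd hb ha.2.1 ha.2.2.symm
    have h1 := hd v' hv'.w
    unfold dg at h1
    refine le_trans (Finset.card_le_card ?_) h1
    intro v hv
    have hB := (Finset.mem_filter.1 hv).2
    exact Finset.mem_filter.2 ⟨Finset.mem_univ _, hB.w, (bd_pair hB hv').symm⟩
  rw [pow_two]
  split_ifs at hKd ⊢ with hT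
  · have h1 : K.card + 1 ≤ d := hKd
    nlinarith
  · have h1 : K.card ≤ d := hKd
    nlinarith

/-- the approximate form -/
theorem ball_approx (hG : Oriented G) (x : V) (d : ℕ)
    (hd : ∀ a, WithinDist G 3 x a → dg G x a ≤ d) :
    ∃ g, Near G x g ∧ (N G g).card ≤ (N2 G g).card + d ^ 2 := by
  obtain ⟨q, hs⟩ := exists_sol G hG x
  by_contra hcon
  push Not at hcon
  have h1 : ∑ v, (Yv G q v - Rv G q v) ≤ ((d ^ 2 : ℕ) : ℝ) := by
    have h2 : ∑ v, (Yv G q v - Rv G q v) ≤
        ∑ v, (ex G q x v + (if ∃ a, Th3 G x a v then q v else 0)) :=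
      Finset.sum_le_sum fun v _ => loss_gen hG hs v
    refine h2.trans ?_
    have e1 : ∑ v, ex G q x v =
        ∑ b, q b * ((Finset.univ.filter (fun v => ∃ a, Bd G x a b v)).card : ℝ) := by
      unfold ex
      rw [Finset.sum_congr rfl fun v _ => Finset.sum_filter _ _, Finset.sum_comm]
      refine Finset.sum_congr rfl fun b _ => ?_
      rw [← Finset.sum_filter, Finset.sum_const, nsmul_eq_mul, mul_comm]
    have e2 : ∀ v, (if ∃ a, Th3 G x a v then q v else 0) =
        q v * ((if ∃ a, Th3 G x a v then 1 else 0 : ℕ) : ℝ) := by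
      intro v
      split_ifs
      · rw [Nat.cast_one, mul_one]
      · rw [Nat.cast_zero, mul_zero]
    rw [Finset.sum_add_distrib, e1, Finset.sum_congr rfl fun v _ => e2 v,
      ← Finset.sum_add_distrib]
    have h3 : ∑ b, q b * ((d ^ 2 : ℕ) : ℝ) = ((d ^ 2 : ℕ) : ℝ) := by
      rw [← Finset.sum_mul, hs.sum, one_mul]
    rw [← h3]
    refine Finset.sum_le_sum fun b _ => ?_
    rw [← mul_add]
    by_cases hb0 : q b = 0
    · rw [hb0, zero_mul, zero_mul]
    have hxb : Near G x b := by
      by_contra h
      exact hb0 (hs.off b h)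
    refine mul_le_mul_of_nonneg_left ?_ (hs.nonneg b)
    exact_mod_cast charge hd b hxb
  have h2 : ((d ^ 2 : ℕ) : ℝ) + 1 ≤ ∑ v, (Yv G q v - Rv G q v) := by
    rw [sum_loss]
    have h3 : ∑ b, q b * (((d ^ 2 : ℕ) : ℝ) + 1) = ((d ^ 2 : ℕ) : ℝ) + 1 := by
      rw [← Finset.sum_mul, hs.sum, one_mul]
    rw [← h3]
    refine Finset.sum_le_sum fun b _ => ?_
    by_cases hb0 : q b = 0
    · rw [hb0, zero_mul, zero_mul]
    have hxb : Near G x b := by
      by_contra h
      exact hb0 (hs.off b h)
    refine mul_le_mul_of_nonneg_left ?_ (hs.nonneg b)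
    have h4 : (((N2 G b).card + d ^ 2 + 1 : ℕ) : ℝ) ≤ ((N G b).card : ℝ) := by
      exact_mod_cast hcon b hxb
    push_cast at h4 ⊢
    linarith
  linarith

end Pool.Agent.H17.SN
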