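import Mathlib
import Pool.Agent.H17.SN.Ball5

/-!
MP_2bbbb5, WithinTwo: small out-degrees and the example (helper17).
-/

set_option autoImplicit false

namespace Pool.Agent.H17.SN

open Classical Pool.Agent.H39.Burckel

theorem two_of {V : Type} [Fintype V] (G : Digraph V) (hG : Oriented G) (x : V)
    (h : ∃ g, WithinDist G 2 x g ∧ (N G g).card ≤ (N2 G g).card) :
    ∃ g : V, IsSeymour G g ∧ WithinDist G (min 2 {w : V | G.Adj x w}.ncard) x g := by
  rw [ncard_N]
  by_cases h2 : 2 ≤ (N G x).card
  · rw [min_eq_left h2]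
    obtain ⟨g, h3, h4⟩ := h
    exact ⟨g, (isSeymour_iff G g).2 h4, h3⟩
  · have h3 : (N G x).card = 0 ∨ (N G x).card = 1 := by omega
    rcases h3 with h3 | h3
    · refine ⟨x, (isSeymour_iff G x).2 (by rw [h3]; exact Nat.zero_le _), ?_⟩
      exact (withinDist_refl G x).mono (Nat.zero_le _)
    · rw [h3]
      by_cases hx : (N G x).card ≤ (N2 G x).card
      · exact ⟨x, (isSeymour_iff G x).2 hx, (withinDist_refl G x).mono (Nat.zero_le _)⟩
      · have h4 : (N2 G x).card = 0 := by omega
        obtain ⟨y, hy⟩ := Finset.card_eq_one.1 h3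
        have hxy : G.Adj x y := (mem_N G).1 (by rw [hy]; exact Finset.mem_singleton_self y)
        refine ⟨y, (isSeymour_iff G y).2 ?_, (withinDist_refl G x).step hxy⟩
        have h5 : N G y = ∅ := by
          rw [Finset.eq_empty_iff_forall_notMem]
          intro z hz
          rw [mem_N] at hz
          have h6 : z ∈ N2 G x := by
            rw [mem_N2]
            refine ⟨?_, ?_, y, hxy, hz⟩
            · rintro rfl
              exact hG _ _ hxy hz
            · intro h7
              have h8 : z ∈ N G x := (mem_N G).2 h7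
              rw [hy, Finset.mem_singleton] at h8
              subst h8
              exact hG _ _ hz hz
          rw [Finset.card_eq_zero.1 h4] at h6
          exact absurd h6 (Finset.notMem_empty _)
        rw [h5, Finset.card_empty]
        exact Nat.zero_le _

/-- a tournament on six vertices, by its out-neighbourhoods -/
def out6 : Fin 6 → Finset (Fin 6) := ![{2, 3, 4}, {0, 5}, {1, 4, 5}, {1, 2, 4, 5}, {1, 5}, {0}]

def G6 : Digraph (Fin 6) where
  Adj a b := b ∈ out6 a

theorem G6_spec : ∃ (G : Digraph (Fin 6)) (x : Fin 6), Oriented G ∧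
    (∀ a b, a ≠ b → G.Adj a b ∨ G.Adj b a) ∧ ∀ g, WithinDist G 1 x g → ¬ IsSeymour G g := by
  refine ⟨G6, 0, ?_, ?_, ?_⟩
  · have : ∀ u w : Fin 6, w ∈ out6 u → ¬ u ∈ out6 w := by decide
    exact this
  · have : ∀ a b : Fin 6, a ≠ b → b ∈ out6 a ∨ a ∈ out6 b := by decide
    exact this
  · intro g hg
    have hg' : g = 0 ∨ g ∈ out6 0 := by
      obtain ⟨m, hm, p, h0, hl, hp⟩ := hg
      have hm' : m = 0 ∨ m = 1 := by omega
      rcases hm' with rfl | rfl
      · left
        rw [← hl, ← h0]
        rfl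
      · right
        have h1 := hp 0
        rw [← hl]
        change p 1 ∈ out6 0
        have h2 : p (Fin.succ 0) ∈ out6 (p (Fin.castSucc 0)) := h1
        rw [show p (Fin.castSucc 0) = 0 from h0] at h2
        exact h2
    rw [isSeymour_iff]
    have e1 : N G6 g = out6 g := by
      ext w
      exact mem_N G6
    have e2 : N2 G6 g = Finset.univ.filter (fun w => w ≠ g ∧ ¬ w ∈ out6 g ∧
        ∃ u, u ∈ out6 g ∧ w ∈ out6 u) := by
      ext w
      rw [mem_N2, Finset.mem_filter]
      exact ⟨fun h => ⟨Finset.mem_univ _, h⟩, fun h => h.2⟩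
    rw [e1, e2]
    have e3 : ∀ g : Fin 6, (g = 0 ∨ g ∈ out6 0) → ¬ (out6 g).card ≤ (@Finset.filter (Fin 6)
        (fun w => w ≠ g ∧ ¬ w ∈ out6 g ∧ ∃ u, u ∈ out6 g ∧ w ∈ out6 u)
        (fun w => inferInstance) Finset.univ).card := by
      decide
    have e4 := e3 g hg'
    convert e4

end Pool.Agent.H17.SN
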