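import Mathlib
import Pool.Agent.H17.SN.Ball5

/-!
MP_2bbbb5, WithinTwo: the approximate form with the linear error `4 * d` (helper17).
-/

set_option autoImplicit false

namespace Pool.Agent.H17.SN

open Classical Pool.Agent.H39.Burckel

variable {V : Type} [Fintype V] {G : Digraph V} {q : V → ℝ}

/-- weight of the wild partners of `w` -/
noncomputable def Kp (G : Digraph V) (q : V → ℝ) (w : V) : ℝ :=
  ∑ u ∈ Finset.univ.filter (fun u => Wild G w u), q u

/-- weight of the wild partners of `w` that dominate `v` -/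
noncomputable def yw (G : Digraph V) (q : V → ℝ) (w v : V) : ℝ :=
  ∑ u ∈ Finset.univ.filter (fun u => Wild G w u ∧ G.Adj u v), q u

/-- weight of the vertices that do not reach `v` within two -/
noncomputable def zv (G : Digraph V) (q : V → ℝ) (v : V) : ℝ :=
  ∑ u ∈ Finset.univ.filter (fun u => ¬ Near G u v), q u

theorem four (hG : Oriented G) (u v : V) :
    (u = v ∧ ¬ G.Adj u v ∧ v ∉ N2 G u ∧ Near G u v) ∨
    (u ≠ v ∧ G.Adj u v ∧ v ∉ N2 G u ∧ Near G u v) ∨
    (u ≠ v ∧ ¬ G.Adj u v ∧ v ∈ N2 G u ∧ Near G u v) ∨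
    (u ≠ v ∧ ¬ G.Adj u v ∧ v ∉ N2 G u ∧ ¬ Near G u v) := by
  by_cases e0 : u = v
  · subst e0
    exact Or.inl ⟨rfl, fun h => hG _ _ h h, fun h => ((mem_N2 G).1 h).1 rfl, Or.inl rfl⟩
  by_cases e1 : G.Adj u v
  · exact Or.inr (Or.inl ⟨e0, e1, fun h => ((mem_N2 G).1 h).2.1 e1, Or.inr (Or.inl e1)⟩)
  by_cases e2 : v ∈ N2 G u
  · refine Or.inr (Or.inr (Or.inl ⟨e0, e1, e2, ?_⟩))
    obtain ⟨-, -, w, h1, h2⟩ := (mem_N2 G).1 e2
    exact Or.inr (Or.inr ⟨w, h1, h2⟩)
  · refine Or.inr (Or.inr (Or.inr ⟨e0, e1, e2, ?_⟩))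
    rintro (h | h | ⟨w, h1, h2⟩)
    · exact e0 h.symm
    · exact e1 h
    · exact e2 ((mem_N2 G).2 ⟨fun h => e0 h.symm, e1, w, h1, h2⟩)

theorem row_one {x : V} (hG : Oriented G) (hs : Sol G x q) {w v : V} (hw : Near G x w)
    (hwv : ¬ Near G w v) : Yv G q v - Rv G q v - q v ≤ yw G q w v + Sv G q v w := by
  have key : ∀ u, (mat G w u : ℝ) * q u ≤ -(if G.Adj u v then q u else 0) +
      (if Wild G w u ∧ G.Adj u v then q u else 0) + (if v ∈ N2 G u then q u else 0) +
      (if ¬ Near G u v then (mat G w u : ℝ) * q u else 0) + (if u = v then q u else 0) := by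
    intro u
    have hqu := hs.nonneg u
    have hm : (mat G w u : ℝ) ≤ 1 := by exact_mod_cast mat_le G w u
    rcases four hG u v with ⟨e0, e1, e2, e3⟩ | ⟨e0, e1, e2, e3⟩ | ⟨e0, e1, e2, e3⟩ |
      ⟨e0, e1, e2, e3⟩
    · rw [if_neg e1, if_neg (fun h : Wild G w u ∧ G.Adj u v => e1 h.2), if_neg e2, if_neg (not_not.2 e3), if_pos e0]
      nlinarith
    · rw [if_pos e1, if_neg e2, if_neg (not_not.2 e3), if_neg e0]
      rcases mat_Y G hG e1 hwv with h | h
      · rw [h]
        push_cast
        split_ifs <;> linarith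
      · rw [if_pos ⟨h, e1⟩, mat_wild G h]
        push_cast
        linarith
    · rw [if_neg e1, if_neg (fun h : Wild G w u ∧ G.Adj u v => e1 h.2), if_pos e2, if_neg (not_not.2 e3), if_neg e0]
      nlinarith
    · rw [if_neg e1, if_neg (fun h : Wild G w u ∧ G.Adj u v => e1 h.2), if_neg e2, if_pos e3, if_neg e0]
      linarith
  have hsum := Finset.sum_le_sum fun u (_ : u ∈ Finset.univ) => key u
  simp only [Finset.sum_add_distrib, Finset.sum_neg_distrib] at hsum
  rw [← Finset.sum_filter, ← Finset.sum_filter, ← Finset.sum_filter, ← Finset.sum_filter,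
    Finset.sum_ite_eq' Finset.univ v q, if_pos (Finset.mem_univ _)] at hsum
  have h0 := hs.row w hw
  unfold Yv Rv yw Sv
  linarith

theorem row_two {x : V} (hG : Oriented G) (hs : Sol G x q) {w v : V} (hw : Near G x w)
    (hwv : ¬ Near G w v) :
    Yv G q v - Rv G q v - q v ≤ 2 * yw G q w v - Kp G q w + zv G q v + Sv G q v w := by
  have key : ∀ u, (mat G w u : ℝ) * q u ≤ -(if G.Adj u v then q u else 0) +
      2 * (if Wild G w u ∧ G.Adj u v then q u else 0) - (if Wild G w u then q u else 0) +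
      (if v ∈ N2 G u then q u else 0) + (if ¬ Near G u v then q u else 0) +
      (if ¬ Near G u v then (mat G w u : ℝ) * q u else 0) + (if u = v then q u else 0) := by
    intro u
    have hqu := hs.nonneg u
    have hm : (mat G w u : ℝ) ≤ 1 := by exact_mod_cast mat_le G w u
    rcases four hG u v with ⟨e0, e1, e2, e3⟩ | ⟨e0, e1, e2, e3⟩ | ⟨e0, e1, e2, e3⟩ |
      ⟨e0, e1, e2, e3⟩
    · rw [if_neg e1, if_neg (fun h : Wild G w u ∧ G.Adj u v => e1 h.2), if_neg e2, if_neg (not_not.2 e3),
        if_neg (not_not.2 e3), if_pos e0]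
      by_cases hW : Wild G w u
      · rw [if_pos hW, mat_wild G hW]
        push_cast
        linarith
      · rw [if_neg hW]
        nlinarith
    · rw [if_pos e1, if_neg e2, if_neg (not_not.2 e3), if_neg (not_not.2 e3), if_neg e0]
      by_cases hW : Wild G w u
      · rw [if_pos ⟨hW, e1⟩, if_pos hW, mat_wild G hW]
        push_cast
        linarith
      · rw [if_neg (fun h : Wild G w u ∧ G.Adj u v => hW h.1), if_neg hW]
        rcases mat_Y G hG e1 hwv with h | h
        · rw [h]
          push_cast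
          linarith
        · exact absurd h hW
    · rw [if_neg e1, if_neg (fun h : Wild G w u ∧ G.Adj u v => e1 h.2), if_pos e2, if_neg (not_not.2 e3),
        if_neg (not_not.2 e3), if_neg e0]
      by_cases hW : Wild G w u
      · rw [if_pos hW, mat_wild G hW]
        push_cast
        linarith
      · rw [if_neg hW]
        nlinarith
    · rw [if_neg e1, if_neg (fun h : Wild G w u ∧ G.Adj u v => e1 h.2), if_neg e2, if_pos e3, if_pos e3, if_neg e0]
      split_ifs <;> linarith
  have hsum := Finset.sum_le_sum fun u (_ : u ∈ Finset.univ) => key u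
  simp only [Finset.sum_add_distrib, Finset.sum_sub_distrib, Finset.sum_neg_distrib,
    ← Finset.mul_sum] at hsum
  rw [← Finset.sum_filter, ← Finset.sum_filter, ← Finset.sum_filter, ← Finset.sum_filter,
    ← Finset.sum_filter, ← Finset.sum_filter,
    Finset.sum_ite_eq' Finset.univ v q, if_pos (Finset.mem_univ _)] at hsum
  have h0 := hs.row w hw
  unfold Yv Rv yw Sv Kp zv
  linarith

theorem Sv_le {x : V} (hs : Sol G x q) (v r : V) : Sv G q v r ≤ zv G q v := by
  unfold Sv zv
  refine Finset.sum_le_sum fun u _ => ?_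
  have h1 : (mat G r u : ℝ) ≤ 1 := by exact_mod_cast mat_le G r u
  nlinarith [hs.nonneg u]

theorem row_v {x : V} (hG : Oriented G) (hs : Sol G x q) {v : V} (hv : Near G x v) :
    Yv G q v - Rv G q v ≤ zv G q v := by
  have h1 := row_use hG hs.nonneg v v
  have h2 : Ev G q v v = 0 := by
    refine Finset.sum_eq_zero fun u hu => ?_
    have h3 := mat_back G hG (Finset.mem_filter.1 hu).2
    rw [h3]
    push_cast
    ring
  have h4 : 0 ≤ Row G q v := hs.row v hv
  have h5 := Sv_le hs v v
  rw [h2, mat_self hG, zero_mul] at h1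
  linarith

theorem yw_nonneg (hq : ∀ v, 0 ≤ q v) (w v : V) : 0 ≤ yw G q w v :=
  Finset.sum_nonneg fun u _ => hq u

theorem yw_le (hq : ∀ v, 0 ≤ q v) (w v : V) : yw G q w v ≤ Kp G q w := by
  unfold yw Kp
  refine Finset.sum_le_sum_of_subset_of_nonneg ?_ fun u _ _ => hq u
  intro u hu
  rw [Finset.mem_filter] at hu ⊢
  exact ⟨hu.1, hu.2.1⟩

/-- the charge of `v` -/
noncomputable def Fv (G : Digraph V) (q : V → ℝ) (v : V) : ℝ :=
  ∑ w ∈ Finset.univ.filter (fun w => ¬ Near G w v), q w * (yw G q w v / Kp G q w)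

theorem algebra_bound {L B Gd z Fg : ℝ} (hB : 0 ≤ B) (hz : z = B + Gd) (hGd : 0 ≤ Gd)
    (hFg : 0 ≤ Fg) (h1 : L ≤ z) (h2 : Gd * L ≤ 2 * z * Fg + Gd * B) :
    3 * L ≤ 8 * Fg + 4 * B := by
  rcases eq_or_lt_of_le (add_nonneg hB hGd) with h0 | h0
  · have : z = 0 := by rw [hz, ← h0]
    linarith
  · by_cases hLB : L ≤ B
    · linarith
    · push Not at hLB
      have hz0 : 0 < z := by rw [hz]; exact h0
      by_contra hcon
      push Not at hcon
      have h3 : z * (8 * Fg + 4 * B) < z * (3 * L) := mul_lt_mul_of_pos_left hcon hz0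
      have h4 : Gd = z - B := by linarith
      rw [h4] at h2
      nlinarith [sq_nonneg (L - 2 * B), mul_nonneg (sub_nonneg.2 h1) (hB.trans hLB.le)]

/-- the main bound -/
theorem main_v {x : V} (hG : Oriented G) (hs : Sol G x q) (v : V) :
    3 * (Yv G q v - Rv G q v - q v - (if Near G x v then 0 else yw G q x v)) ≤
      8 * Fv G q v := by
  set L := Yv G q v - Rv G q v - q v - (if Near G x v then 0 else yw G q x v) with hL
  have hq := hs.nonneg
  have hL' : L ≤ Yv G q v - Rv G q v - q v := by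
    rw [hL]
    have : 0 ≤ (if Near G x v then 0 else yw G q x v) := by
      split_ifs
      · exact le_refl _
      · exact yw_nonneg hq x v
    linarith
  have hLz : L ≤ zv G q v := by
    by_cases hv : Near G x v
    · rw [hL, if_pos hv]
      have := row_v hG hs hv
      linarith [hq v]
    · rw [hL, if_neg hv]
      have h1 := row_one hG hs (Or.inl rfl : Near G x x) hv
      have h2 := Sv_le hs v x
      linarith
  set Z := Finset.univ.filter (fun w => ¬ Near G w v) with hZ
  set Zg := Z.filter (fun w => 2 * yw G q w v ≤ Kp G q w) with hZg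
  set Zb := Z.filter (fun w => ¬ 2 * yw G q w v ≤ Kp G q w) with hZb
  have hsplit : ∀ f : V → ℝ, ∑ w ∈ Z, f w = ∑ w ∈ Zg, f w + ∑ w ∈ Zb, f w := fun f =>
    (Finset.sum_filter_add_sum_filter_not Z _ f).symm
  have hFn : ∀ w, 0 ≤ q w * (yw G q w v / Kp G q w) := fun w =>
    mul_nonneg (hq w) (div_nonneg (yw_nonneg hq w v) ((yw_nonneg hq w v).trans (yw_le hq w v)))
  have hz : zv G q v = ∑ w ∈ Zb, q w + ∑ w ∈ Zg, q w := by
    unfold zv
    rw [← hZ, hsplit]
    ring
  have hF : Fv G q v = ∑ w ∈ Zg, q w * (yw G q w v / Kp G q w) +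
      ∑ w ∈ Zb, q w * (yw G q w v / Kp G q w) := by
    unfold Fv
    rw [← hZ, hsplit]
  have hFb : ∑ w ∈ Zb, q w ≤ 2 * ∑ w ∈ Zb, q w * (yw G q w v / Kp G q w) := by
    rw [Finset.mul_sum]
    refine Finset.sum_le_sum fun w hw => ?_
    have h1 := (Finset.mem_filter.1 hw).2
    push Not at h1
    have h2 := yw_le (G := G) hq w v
    have h3 := yw_nonneg (G := G) hq w v
    have h4 : 0 < Kp G q w := by
      by_contra h
      push Not at h
      linarith
    have h5 : 1 / 2 ≤ yw G q w v / Kp G q w := by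
      rw [le_div_iff₀ h4]
      linarith
    nlinarith [hq w]
  have hmain : (∑ w ∈ Zg, q w) * L ≤ 2 * zv G q v * (∑ w ∈ Zg, q w * (yw G q w v / Kp G q w)) +
      (∑ w ∈ Zg, q w) * (∑ w ∈ Zb, q w) := by
    have h1 : ∀ w ∈ Zg, q w * L ≤ 2 * zv G q v * (q w * (yw G q w v / Kp G q w)) +
        q w * Sv G q v w := by
      intro w hw
      by_cases hw0 : q w = 0
      · rw [hw0]
        simp
      have hxw : Near G x w := by
        by_contra h
        exact hw0 (hs.off w h)
      obtain ⟨hwZ, hwg⟩ := Finset.mem_filter.1 hw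
      have hwv := (Finset.mem_filter.1 hwZ).2
      have h2 := row_one hG hs hxw hwv
      have h3 := row_two hG hs hxw hwv
      have h4 := yw_nonneg (G := G) hq w v
      have h5 : L ≤ 2 * zv G q v * (yw G q w v / Kp G q w) + Sv G q v w := by
        rcases (h4.trans (yw_le hq w v)).lt_or_eq with hK | hK
        · have h6 : 2 * zv G q v * (yw G q w v / Kp G q w) =
              (2 * zv G q v * yw G q w v) / Kp G q w := by ring
          have h7 : L - Sv G q v w ≤ (2 * zv G q v * yw G q w v) / Kp G q w := by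
            rw [le_div_iff₀ hK]
            by_cases hKz : Kp G q w ≤ zv G q v
            · have h8 : L - Sv G q v w ≤ yw G q w v := by linarith
              have h9 : (L - Sv G q v w) * Kp G q w ≤ yw G q w v * Kp G q w :=
                mul_le_mul_of_nonneg_right h8 hK.le
              nlinarith [mul_le_mul_of_nonneg_left hKz h4, mul_nonneg h4 (hK.le.trans hKz)]
            · push Not at hKz
              have h8 : L - Sv G q v w ≤ 2 * yw G q w v - Kp G q w + zv G q v := by linarith
              have h9 : (L - Sv G q v w) * Kp G q w ≤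
                  (2 * yw G q w v - Kp G q w + zv G q v) * Kp G q w :=
                mul_le_mul_of_nonneg_right h8 hK.le
              nlinarith [mul_nonneg (sub_nonneg.2 hKz.le) (sub_nonneg.2 hwg)]
          linarith
        · have h6 : yw G q w v = 0 := le_antisymm ((yw_le hq w v).trans hK.symm.le) h4
          rw [← hK, div_zero, mul_zero]
          linarith
      have h6 := mul_le_mul_of_nonneg_left h5 (hq w)
      calc q w * L ≤ q w * (2 * zv G q v * (yw G q w v / Kp G q w) + Sv G q v w) := h6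
        _ = _ := by ring
    have h2 := Finset.sum_le_sum h1
    rw [Finset.sum_add_distrib, ← Finset.sum_mul, ← Finset.mul_sum] at h2
    refine h2.trans (add_le_add_right ?_ _)
    have h3 : ∀ w, Sv G q v w = ∑ u ∈ Zg, (mat G w u : ℝ) * q u + ∑ u ∈ Zb, (mat G w u : ℝ) * q u := by
      intro w
      unfold Sv
      rw [← hZ, hsplit]
    rw [Finset.sum_congr rfl fun w _ => by rw [h3 w, mul_add], Finset.sum_add_distrib,
      skew_sum (fun u v => (mat G u v : ℝ)) (fun u v => by
        have := mat_skew G hG u v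
        exact_mod_cast this) Zg q, zero_add, Finset.sum_mul]
    refine Finset.sum_le_sum fun w _ => mul_le_mul_of_nonneg_left ?_ (hq w)
    refine Finset.sum_le_sum fun u _ => ?_
    have h1 : (mat G w u : ℝ) ≤ 1 := by exact_mod_cast mat_le G w u
    nlinarith [hq u]
  have h1 := algebra_bound (Finset.sum_nonneg fun w _ => hq w) hz
    (Finset.sum_nonneg fun w _ => hq w) (Finset.sum_nonneg fun w _ => hFn w) hLz hmain
  rw [hF]
  linarith

/-- the number of losing arcs of a wild pair -/
theorem few {x : V} {d : ℕ} (hd : ∀ a, WithinDist G 3 x a → dg G x a ≤ d) {w b : V}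
    (hw : Near G x w) (hb : Near G x b) (h : Wild G w b) :
    (Finset.univ.filter (fun v => G.Adj b v ∧ ¬ Near G w v)).card ≤ d := by
  have h1 := h.2.2
  unfold Cov at h1
  push Not at h1
  obtain ⟨v', h2, h3⟩ := h1
  have h4 := near_three' hw h2
  refine le_trans (Finset.card_le_card ?_) (hd v' h4)
  intro v hv
  obtain ⟨-, h5, h6⟩ := Finset.mem_filter.1 hv
  refine Finset.mem_filter.2 ⟨Finset.mem_univ _, near_three' hb h5, ?_, ?_, ?_⟩
  · rintro rfl
    exact h6 (Or.inr (Or.inl h2))
  · intro h7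
    exact h6 (Or.inr (Or.inr ⟨v', h2, h7⟩))
  · intro h7
    exact h3 (Or.inr (Or.inr ⟨v, h5, h7⟩))

theorem sum_yw {x : V} {d : ℕ} (hs : Sol G x q)
    (hd : ∀ a, WithinDist G 3 x a → dg G x a ≤ d) {w : V} (hw : Near G x w) :
    ∑ v ∈ Finset.univ.filter (fun v => ¬ Near G w v), yw G q w v ≤ d * Kp G q w := by
  unfold yw Kp
  have e1 : ∀ v, ∑ u ∈ Finset.univ.filter (fun u => Wild G w u ∧ G.Adj u v), q u =
      ∑ u ∈ Finset.univ.filter (fun u => Wild G w u), if G.Adj u v then q u else 0 := by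
    intro v
    rw [← Finset.filter_filter, Finset.sum_filter]
  rw [Finset.sum_congr rfl fun v _ => e1 v, Finset.sum_comm, Finset.mul_sum]
  refine Finset.sum_le_sum fun u hu => ?_
  have hW := (Finset.mem_filter.1 hu).2
  by_cases hu0 : q u = 0
  · rw [hu0, mul_zero]
    refine le_of_eq (Finset.sum_eq_zero fun v _ => ?_)
    split_ifs <;> rfl
  have hxu : Near G x u := by
    by_contra h
    exact hu0 (hs.off u h)
  rw [← Finset.sum_filter, Finset.filter_filter, Finset.sum_const, nsmul_eq_mul]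
  refine mul_le_mul_of_nonneg_right ?_ (hs.nonneg u)
  have h1 := few hd hw hxu hW
  have h2 : Finset.univ.filter (fun v => ¬ Near G w v ∧ G.Adj u v) =
      Finset.univ.filter (fun v => G.Adj u v ∧ ¬ Near G w v) := by
    ext v
    simp [and_comm]
  rw [h2]
  exact_mod_cast h1

theorem sum_Fv {x : V} {d : ℕ} (hs : Sol G x q)
    (hd : ∀ a, WithinDist G 3 x a → dg G x a ≤ d) : ∑ v, Fv G q v ≤ d := by
  unfold Fv
  have e1 : ∀ v, ∑ w ∈ Finset.univ.filter (fun w => ¬ Near G w v),
      q w * (yw G q w v / Kp G q w) =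
      ∑ w, if ¬ Near G w v then q w * (yw G q w v / Kp G q w) else 0 :=
    fun v => Finset.sum_filter _ _
  rw [Finset.sum_congr rfl fun v _ => e1 v, Finset.sum_comm]
  have h1 : ∑ w, q w * (d : ℝ) = d := by rw [← Finset.sum_mul, hs.sum, one_mul]
  rw [← h1]
  refine Finset.sum_le_sum fun w _ => ?_
  rw [← Finset.sum_filter, ← Finset.mul_sum, ← Finset.sum_div]
  by_cases hw0 : q w = 0
  · rw [hw0, zero_mul, zero_mul]
  have hxw : Near G x w := by
    by_contra h
    exact hw0 (hs.off w h)
  refine mul_le_mul_of_nonneg_left ?_ (hs.nonneg w)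
  have h2 := sum_yw hs hd hxw
  have h3 : 0 ≤ Kp G q w := Finset.sum_nonneg fun u _ => hs.nonneg u
  rcases h3.lt_or_eq with h3 | h3
  · rw [div_le_iff₀ h3]
    exact h2
  · rw [← h3, div_zero]
    exact Nat.cast_nonneg d

theorem Kp_le_one {x : V} (hs : Sol G x q) (w : V) : Kp G q w ≤ 1 := by
  rw [← hs.sum]
  unfold Kp
  exact Finset.sum_le_sum_of_subset_of_nonneg (Finset.filter_subset _ _) fun u _ _ => hs.nonneg u

/-- the approximate form with a linear error -/
theorem ball_linear (hG : Oriented G) (x : V) {d : ℕ} (hd0 : 0 < d)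
    (hd : ∀ a, WithinDist G 3 x a → dg G x a ≤ d) :
    ∃ g, Near G x g ∧ (N G g).card ≤ (N2 G g).card + 4 * d := by
  obtain ⟨q, hs⟩ := exists_sol G hG x
  by_contra hcon
  push Not at hcon
  have h1 : 3 * ∑ v, (Yv G q v - Rv G q v) ≤ 3 * 1 + 3 * (d : ℝ) + 8 * (d : ℝ) := by
    have h2 := Finset.sum_le_sum fun v (_ : v ∈ Finset.univ) => main_v hG hs v
    rw [← Finset.mul_sum, ← Finset.mul_sum, Finset.sum_sub_distrib, Finset.sum_sub_distrib,
      hs.sum] at h2
    have h3 := sum_Fv hs hd
    have h4 : ∑ v, (if Near G x v then 0 else yw G q x v) ≤ d := by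
      have h5 : ∀ v, (if Near G x v then 0 else yw G q x v) =
          if ¬ Near G x v then yw G q x v else 0 := by
        intro v
        split_ifs <;> rfl
      rw [Finset.sum_congr rfl fun v _ => h5 v, ← Finset.sum_filter]
      refine (sum_yw hs hd (Or.inl rfl : Near G x x)).trans ?_
      have h6 := Kp_le_one hs x
      have h7 : (0 : ℝ) ≤ d := Nat.cast_nonneg d
      nlinarith
    linarith
  have h2 : (4 * (d : ℝ)) + 1 ≤ ∑ v, (Yv G q v - Rv G q v) := by
    rw [sum_loss]
    have h3 : ∑ b, q b * ((4 * (d : ℝ)) + 1) = (4 * (d : ℝ)) + 1 := by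
      rw [← Finset.sum_mul, hs.sum, one_mul]
    rw [← h3]
    refine Finset.sum_le_sum fun b _ => ?_
    by_cases hb0 : q b = 0
    · rw [hb0, zero_mul, zero_mul]
    have hxb : Near G x b := by
      by_contra h
      exact hb0 (hs.off b h)
    refine mul_le_mul_of_nonneg_left ?_ (hs.nonneg b)
    have h4 : (((N2 G b).card + 4 * d + 1 : ℕ) : ℝ) ≤ ((N G b).card : ℝ) := by
      exact_mod_cast hcon b hxb
    push_cast at h4 ⊢
    linarith
  have h3 : (1 : ℝ) ≤ d := by exact_mod_cast hd0
  linarith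

/-- both errors -/
theorem ball_approx' (hG : Oriented G) (x : V) (d : ℕ)
    (hd : ∀ a, WithinDist G 3 x a → dg G x a ≤ d) :
    ∃ g, Near G x g ∧ (N G g).card ≤ (N2 G g).card + min (d ^ 2) (4 * d) := by
  rcases Nat.eq_zero_or_pos d with h | h
  · subst h
    obtain ⟨g, h1, h2⟩ := ball_approx hG x 0 hd
    exact ⟨g, h1, by simpa using h2⟩
  · rcases le_total (d ^ 2) (4 * d) with h3 | h3
    · rw [min_eq_left h3]
      exact ball_approx hG x d hd
    · rw [min_eq_right h3]
      exact ball_linear hG x h hd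

end Pool.Agent.H17.SN
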