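import Mathlib
import Pool.Agent.H17.SN.Ball7

/-!
MP_2bbbb5, WithinTwo: exceptional vertices, and the form with the number of non-adjacent pairs
(helper17).
-/

set_option autoImplicit false

namespace Pool.Agent.H17.SN

open Classical Pool.Agent.H39.Burckel

variable {V : Type} [Fintype V] {G : Digraph V}

/-- the subgraph induced outside `S` -/
def outG (G : Digraph V) (S : Finset V) : Digraph {v : V // v ∉ S} where
  Adj a b := G.Adj a.1 b.1

theorem outG_dist {S : Finset V} {n : ℕ} {x a : {v : V // v ∉ S}}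
    (h : WithinDist (outG G S) n x a) : WithinDist G n x.1 a.1 := by
  obtain ⟨m, hm, p, h0, hl, hp⟩ := h
  exact ⟨m, hm, fun i => (p i).1, congrArg Subtype.val h0, congrArg Subtype.val hl,
    fun i => hp i⟩

theorem outG_near {S : Finset V} {x a : {v : V // v ∉ S}} (h : Near (outG G S) x a) :
    Near G x.1 a.1 := (near_iff G x.1 a.1).1 (outG_dist ((near_iff (outG G S) x a).2 h))

theorem outG_dg {S : Finset V} (x a : {v : V // v ∉ S}) :
    dg (outG G S) x a ≤ dg G x.1 a.1 := by
  unfold dg
  refine Finset.card_le_card_of_injOn (fun v => v.1) ?_ (fun a _ b _ h => Subtype.ext h)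
  intro b hb
  obtain ⟨-, h1, h2, h3, h4⟩ := Finset.mem_filter.1 (Finset.mem_coe.1 hb)
  exact Finset.mem_coe.2 (Finset.mem_filter.2 ⟨Finset.mem_univ _, outG_dist h1,
    fun h => h2 (Subtype.ext h), h3, h4⟩)

/-- the approximate form with exceptional vertices -/
theorem ball_except (hG : Oriented G) (x : V) (d : ℕ) (S : Finset V) (hx : x ∉ S)
    (hd : ∀ a, WithinDist G 3 x a → a ∉ S → dg G x a ≤ d) :
    ∃ g, g ∉ S ∧ Near G x g ∧ (N G g).card ≤ (N2 G g).card + min (d ^ 2) (4 * d) + S.card := by
  obtain ⟨g, h1, h2⟩ := ball_approx' (G := outG G S) (fun u w h h' => hG _ _ h h') ⟨x, hx⟩ d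
    (fun a ha => (outG_dg ⟨x, hx⟩ a).trans (hd a.1 (outG_dist ha) a.2))
  refine ⟨g.1, g.2, outG_near h1, ?_⟩
  have h3 : (N G g.1).card ≤ (N (outG G S) g).card + S.card := by
    have h4 : N G g.1 ⊆ (N (outG G S) g).image (fun v => v.1) ∪ S := by
      intro v hv
      by_cases hvS : v ∈ S
      · exact Finset.mem_union_right _ hvS
      · exact Finset.mem_union_left _ (Finset.mem_image.2
          ⟨⟨v, hvS⟩, (mem_N (outG G S)).2 ((mem_N G).1 hv), rfl⟩)
    refine (Finset.card_le_card h4).trans ((Finset.card_union_le _ _).trans ?_)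
    exact Nat.add_le_add_right Finset.card_image_le _
  have h5 : (N2 (outG G S) g).card ≤ (N2 G g.1).card := by
    refine Finset.card_le_card_of_injOn (fun v => v.1) ?_ (fun a _ b _ h => Subtype.ext h)
    intro b hb
    obtain ⟨h6, h7, w, h8, h9⟩ := (mem_N2 (outG G S)).1 (Finset.mem_coe.1 hb)
    exact Finset.mem_coe.2 ((mem_N2 G).2 ⟨fun h => h6 (Subtype.ext h), h7, w.1, h8, h9⟩)
  omega

/-- the form with the number of ordered pairs of non-adjacent vertices -/
theorem sqrt_form [Nonempty V] (hG : Oriented G) :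
    ∃ g, ((N G g).card : ℝ) ≤ ((N2 G g).card : ℝ) +
      4 * Real.sqrt ((Finset.univ.filter (fun p : V × V => Miss G p.1 p.2)).card : ℝ) := by
  set M : ℕ := (Finset.univ.filter (fun p : V × V => Miss G p.1 p.2)).card with hM
  set d : ℕ := ⌊Real.sqrt (M : ℝ) / 2⌋₊ with hd
  set S : Finset V := Finset.univ.filter
    (fun a => d < (Finset.univ.filter (fun b => Miss G a b)).card) with hS
  have hsq : Real.sqrt (M : ℝ) * Real.sqrt (M : ℝ) = M := Real.mul_self_sqrt (Nat.cast_nonneg M)
  have hs0 : 0 ≤ Real.sqrt (M : ℝ) := Real.sqrt_nonneg _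
  have hd1 : (d : ℝ) ≤ Real.sqrt (M : ℝ) / 2 := Nat.floor_le (by positivity)
  have hd2 : Real.sqrt (M : ℝ) / 2 < (d : ℝ) + 1 := Nat.lt_floor_add_one _
  have hcount : S.card * (d + 1) ≤ M := by
    have h1 : M = ∑ a : V, (Finset.univ.filter (fun b => Miss G a b)).card := by
      rw [hM, ← Finset.univ_product_univ, Finset.card_filter, Finset.sum_product]
      refine Finset.sum_congr rfl fun a _ => ?_
      rw [Finset.card_filter]
    rw [h1, ← smul_eq_mul, ← Finset.sum_const]
    refine (Finset.sum_le_sum fun a ha => ?_).trans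
      (Finset.sum_le_sum_of_subset (Finset.subset_univ S))
    exact (Finset.mem_filter.1 ha).2
  have hS2 : (S.card : ℝ) ≤ 2 * Real.sqrt (M : ℝ) := by
    rcases hs0.lt_or_eq with h | h
    · have h1 : (S.card : ℝ) * ((d : ℝ) + 1) ≤ M := by exact_mod_cast hcount
      have h2 : (S.card : ℝ) * (Real.sqrt (M : ℝ) / 2) ≤ Real.sqrt (M : ℝ) * Real.sqrt (M : ℝ) := by
        rw [hsq]
        exact (mul_le_mul_of_nonneg_left hd2.le (Nat.cast_nonneg _)).trans h1
      by_contra hcon
      push Not at hcon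
      nlinarith
    · have hM0 : (M : ℝ) = 0 := by rw [← hsq, ← h, zero_mul]
      have hM1 : M = 0 := by exact_mod_cast hM0
      have h3 : S.card = 0 := by
        rw [hM1] at hcount
        have := Nat.le_of_lt_succ (Nat.lt_succ_of_le hcount)
        nlinarith
      rw [h3, ← h]
      simp
  by_cases hall : S = Finset.univ
  · obtain ⟨g⟩ := ‹Nonempty V›
    refine ⟨g, ?_⟩
    have h1 : ((N G g).card : ℝ) ≤ (S.card : ℝ) := by
      rw [hall]
      exact_mod_cast Finset.card_le_card (Finset.subset_univ _)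
    have h2 : (0 : ℝ) ≤ (N2 G g).card := Nat.cast_nonneg _
    linarith
  · obtain ⟨x, hx⟩ : ∃ x, x ∉ S := by
      by_contra h
      push Not at h
      exact hall (Finset.eq_univ_iff_forall.2 h)
    obtain ⟨g, -, -, h1⟩ := ball_except hG x d S hx (by
      intro a _ ha
      have h2 : ¬ d < (Finset.univ.filter (fun b => Miss G a b)).card := fun h =>
        ha (Finset.mem_filter.2 ⟨Finset.mem_univ _, h⟩)
      push Not at h2
      refine le_trans (Finset.card_le_card ?_) h2
      intro b hb
      exact Finset.mem_filter.2 ⟨Finset.mem_univ _, (Finset.mem_filter.1 hb).2.2⟩)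
    refine ⟨g, ?_⟩
    have h2 : (N G g).card ≤ (N2 G g).card + 4 * d + S.card := by
      have := min_le_right (d ^ 2) (4 * d)
      omega
    have h3 : ((N G g).card : ℝ) ≤ (N2 G g).card + 4 * d + S.card := by exact_mod_cast h2
    linarith

end Pool.Agent.H17.SN
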