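import Mathlib
import Pool.Agent.H39.BurckelKL

/-!
MP_2bbbb5 (minimum out-degree seven): an arc-minimal counterexample has the Hall property (helper17).
-/

set_option autoImplicit false

namespace Pool.Agent.H17.SN

open Classical Pool.Agent.H39.Burckel

variable {V : Type} [Fintype V]

/-- keep only the arcs from `u` into `Y` (and all the other arcs) -/
def cut (G : Digraph V) (u : V) (Y : Finset V) : Digraph V where
  Adj a b := G.Adj a b ∧ (a = u → b ∈ Y)

theorem cut_N_ne (G : Digraph V) {u v : V} (Y : Finset V) (h : v ≠ u) : N (cut G u Y) v = N G v := by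
  ext w
  rw [mem_N, mem_N]
  exact ⟨fun h1 => h1.1, fun h1 => ⟨h1, fun h2 => absurd h2 h⟩⟩

theorem cut_N (G : Digraph V) {u : V} {Y : Finset V} (hY : Y ⊆ N G u) : N (cut G u Y) u = Y := by
  ext w
  rw [mem_N]
  exact ⟨fun h1 => h1.2 rfl, fun h1 => ⟨(mem_N G).1 (hY h1), fun _ => h1⟩⟩

/-- An arc-minimal counterexample with a vertex of out-degree at most `k`. -/
theorem exists_hall (G : Digraph V) (hG : Oriented G) (hbad : ∀ v, (N2 G v).card < (N G v).card)
    (k : ℕ) (x : V) (hx : (N G x).card ≤ k) :
    ∃ G' : Digraph V, Oriented G' ∧ (∀ v, (N2 G' v).card < (N G' v).card) ∧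
      (∃ x, (N G' x).card ≤ k) ∧
      ∀ (u : V) (Y : Finset V), Y ⊂ N G' u → Y.card ≤ ((Y.biUnion fun y => N G' y) \ Y).card := by
  have key : ∀ n : ℕ, ∀ G : Digraph V, ∑ v, (N G v).card = n → Oriented G →
      (∀ v, (N2 G v).card < (N G v).card) → (∃ x, (N G x).card ≤ k) →
      ∃ G' : Digraph V, Oriented G' ∧ (∀ v, (N2 G' v).card < (N G' v).card) ∧
      (∃ x, (N G' x).card ≤ k) ∧
      ∀ (u : V) (Y : Finset V), Y ⊂ N G' u → Y.card ≤ ((Y.biUnion fun y => N G' y) \ Y).card := by
    intro n
    induction n using Nat.strong_induction_on with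
    | _ n ih =>
      intro G hn hG hbad hx
      by_cases hall : ∀ (u : V) (Y : Finset V), Y ⊂ N G u →
          Y.card ≤ ((Y.biUnion fun y => N G y) \ Y).card
      · exact ⟨G, hG, hbad, hx, hall⟩
      push Not at hall
      obtain ⟨u, Y, hYss, hY⟩ := hall
      have hYs : Y ⊆ N G u := hYss.1
      have hNu := cut_N G hYs
      have hlt : ∑ v, (N (cut G u Y) v).card < n := by
        rw [← hn]
        apply Finset.sum_lt_sum
        · intro v _
          by_cases hv : v = u
          · rw [hv, hNu]
            exact Finset.card_le_card hYs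
          · rw [cut_N_ne G Y hv]
        · refine ⟨u, Finset.mem_univ _, ?_⟩
          rw [hNu]
          exact Finset.card_lt_card hYss
      refine ih _ hlt (cut G u Y) rfl ?_ ?_ ?_
      · intro a b hab hba
        exact hG a b hab.1 hba.1
      · intro v
        by_cases hv : v = u
        · subst hv
          rw [hNu]
          refine lt_of_le_of_lt ?_ hY
          apply Finset.card_le_card
          intro w hw
          rw [mem_N2] at hw
          obtain ⟨hne, hna, y, hvy, hyw⟩ := hw
          have hyY : y ∈ Y := hvy.2 rfl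
          rw [Finset.mem_sdiff, Finset.mem_biUnion]
          refine ⟨⟨y, hyY, (mem_N G).2 hyw.1⟩, ?_⟩
          intro hwY
          exact hna ⟨(mem_N G).1 (hYs hwY), fun _ => hwY⟩
        · rw [cut_N_ne G Y hv]
          refine lt_of_le_of_lt ?_ (hbad v)
          apply Finset.card_le_card
          intro w hw
          rw [mem_N2] at hw ⊢
          obtain ⟨hne, hna, y, hvy, hyw⟩ := hw
          refine ⟨hne, ?_, y, hvy.1, hyw.1⟩
          intro h
          exact hna ⟨h, fun h2 => absurd h2 hv⟩
      · obtain ⟨x, hx⟩ := hx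
        refine ⟨x, ?_⟩
        by_cases hv : x = u
        · subst hv
          rw [hNu]
          exact (Finset.card_le_card hYs).trans hx
        · rw [cut_N_ne G Y hv]
          exact hx
  exact key _ G rfl hG hbad ⟨x, hx⟩

end Pool.Agent.H17.SN
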