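import Mathlib
import Pool.Agent.H39.BurckelKL

/-!
MP_2bbbb5 (minimum out-degree seven), hand case `|M| = 6`, `T ≤ 3`, `K ≤ 4` (helper17).
`S = N x`, `M = N2 x`, `X3 x` = the other vertices with an in-neighbour in `M` (it may contain `x`).
-/

set_option autoImplicit false

namespace Pool.Agent.H17.SN

open Classical Pool.Agent.H39.Burckel

variable {V : Type} [Fintype V] (G : Digraph V)

/-- the third level (with `x`, if `x` has an in-neighbour in `M`) -/
noncomputable def X3 (x : V) : Finset V :=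
  Finset.univ.filter fun w => w ∉ N G x ∧ w ∉ N2 G x ∧ ∃ y ∈ N2 G x, G.Adj y w

theorem mem_X3 {x w : V} : w ∈ X3 G x ↔ w ∉ N G x ∧ w ∉ N2 G x ∧ ∃ y ∈ N2 G x, G.Adj y w := by
  simp [X3]

theorem deg_M {x y : V} (hy : y ∈ N2 G x) : (N G y).card =
    (N G y ∩ N G x).card + (N G y ∩ N2 G x).card + (N G y ∩ X3 G x).card := by
  have h1 : N G y = (N G y ∩ N G x) ∪ (N G y ∩ N2 G x) ∪ (N G y ∩ X3 G x) := by
    ext w
    simp only [Finset.mem_union, Finset.mem_inter, mem_X3, mem_N G (v := y)]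
    constructor
    · intro hw
      by_cases h1 : w ∈ N G x
      · exact Or.inl (Or.inl ⟨hw, h1⟩)
      · by_cases h2 : w ∈ N2 G x
        · exact Or.inl (Or.inr ⟨hw, h2⟩)
        · exact Or.inr ⟨hw, h1, h2, y, hy, hw⟩
    · rintro ((h | h) | h)
      · exact h.1
      · exact h.1
      · exact h.1
  have d1 : Disjoint (N G y ∩ N G x) (N G y ∩ N2 G x) :=
    (N_disj G x).mono Finset.inter_subset_right Finset.inter_subset_right
  have d2 : Disjoint ((N G y ∩ N G x) ∪ (N G y ∩ N2 G x)) (N G y ∩ X3 G x) := by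
    rw [Finset.disjoint_left]
    intro w hw hw'
    rw [Finset.mem_inter, mem_X3] at hw'
    rw [Finset.mem_union, Finset.mem_inter, Finset.mem_inter] at hw
    rcases hw with hw | hw
    · exact hw'.2.1 hw.2
    · exact hw'.2.2.1 hw.2
  conv_lhs => rw [h1]
  rw [Finset.card_union_of_disjoint d2, Finset.card_union_of_disjoint d1]

theorem sum_eq_of_le {α : Type} {s : Finset α} {f g : α → ℕ} (h : ∀ i ∈ s, f i ≤ g i)
    (hs : ∑ i ∈ s, g i ≤ ∑ i ∈ s, f i) : ∀ i ∈ s, f i = g i :=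
  (Finset.sum_eq_sum_iff_of_le h).1 (le_antisymm (Finset.sum_le_sum h) hs)

/-- The case `|M| = 6`, `T ≤ 3`, `K ≤ 4`. -/
theorem hand34 (hG : Oriented G) (hbad : ∀ v, (N2 G v).card < (N G v).card)
    (h7 : ∀ v, 7 ≤ (N G v).card) (x : V) (hM : (N2 G x).card = 6)
    (hT : ∑ y ∈ N2 G x, (N G y ∩ N G x).card ≤ 3) (hK : (X3 G x).card ≤ 4) : False := by
  set S := N G x with hS
  set M := N2 G x with hMd
  set X := X3 G x with hX
  have hin := sum_inside G hG M
  rw [hM] at hin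
  have hdeg : ∀ y ∈ M, (N G y).card = (N G y ∩ S).card + (N G y ∩ M).card + (N G y ∩ X).card :=
    fun y hy => deg_M G hy
  have hk : ∀ y, (N G y ∩ X).card ≤ 4 :=
    fun y => (Finset.card_le_card Finset.inter_subset_right).trans hK
  have hsum : ∑ y ∈ M, (N G y).card = ∑ y ∈ M, (N G y ∩ S).card + ∑ y ∈ M, (N G y ∩ M).card +
      ∑ y ∈ M, (N G y ∩ X).card := by
    rw [← Finset.sum_add_distrib, ← Finset.sum_add_distrib]
    exact Finset.sum_congr rfl hdeg
  have hk4 : ∑ y ∈ M, (N G y ∩ X).card ≤ ∑ y ∈ M, 4 := Finset.sum_le_sum fun y _ => hk y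
  have h74 : ∑ y ∈ M, 7 ≤ ∑ y ∈ M, (N G y).card := Finset.sum_le_sum fun y _ => h7 y
  have c4 : ∑ y ∈ M, 4 = 24 := by rw [Finset.sum_const, hM]; rfl
  have c7 : ∑ y ∈ M, 7 = 42 := by rw [Finset.sum_const, hM]; rfl
  have e7 : ∀ y ∈ M, 7 = (N G y).card := sum_eq_of_le (fun y _ => h7 y) (by omega)
  have e4 : ∀ y ∈ M, (N G y ∩ X).card = 4 := sum_eq_of_le (fun y _ => hk y) (by omega)
  -- a member of `M`
  have hMne : M.Nonempty := by rw [← Finset.card_pos]; omega
  obtain ⟨y₁, hy₁⟩ := hMne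
  have hX4 : X.card = 4 := by
    have h1 := e4 y₁ hy₁
    have h2 := Finset.card_le_card (Finset.inter_subset_right : N G y₁ ∩ X ⊆ X)
    omega
  have hall : ∀ y ∈ M, ∀ w ∈ X, G.Adj y w := by
    intro y hy w hw
    have h1 : N G y ∩ X = X := Finset.eq_of_subset_of_card_le Finset.inter_subset_right (by
      rw [e4 y hy, hX4])
    rw [← h1, Finset.mem_inter, mem_N] at hw
    exact hw.1
  -- the set `R`
  set R := (X.biUnion fun w => N G w) \ X with hR
  have hRM : Disjoint R M := by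
    rw [Finset.disjoint_left]
    intro r hr hrM
    rw [hR, Finset.mem_sdiff, Finset.mem_biUnion] at hr
    obtain ⟨⟨w, hw, hwr⟩, -⟩ := hr
    exact hG _ _ ((mem_N G).1 hwr) (hall r hrM w hw)
  have hRc : 6 ≤ R.card := by
    by_contra hcon
    push Not at hcon
    have hinX := sum_inside G hG X
    rw [hX4] at hinX
    have h1 : ∑ w ∈ X, (N G w).card ≤ ∑ w ∈ X, ((N G w ∩ X).card + 5) := by
      apply Finset.sum_le_sum
      intro w hw
      have h2 : N G w ⊆ (N G w ∩ X) ∪ R := by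
        intro r hr
        by_cases hrX : r ∈ X
        · exact Finset.mem_union_left _ (Finset.mem_inter.2 ⟨hr, hrX⟩)
        · exact Finset.mem_union_right _ (Finset.mem_sdiff.2
            ⟨Finset.mem_biUnion.2 ⟨w, hw, hr⟩, hrX⟩)
      have h3 := (Finset.card_le_card h2).trans (Finset.card_union_le _ _)
      omega
    have h4 : ∑ w ∈ X, 7 ≤ ∑ w ∈ X, (N G w).card := Finset.sum_le_sum fun w _ => h7 w
    rw [Finset.sum_add_distrib, Finset.sum_const, hX4, smul_eq_mul] at h1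
    rw [Finset.sum_const, hX4, smul_eq_mul] at h4
    omega
  -- a vertex of `M` without out-neighbours in `S`
  obtain ⟨y, hy, hy0⟩ : ∃ y ∈ M, (N G y ∩ S).card = 0 := by
    by_contra hcon
    push Not at hcon
    have h1 : ∑ y ∈ M, 1 ≤ ∑ y ∈ M, (N G y ∩ S).card :=
      Finset.sum_le_sum fun y hy => Nat.one_le_iff_ne_zero.2 (hcon y hy)
    rw [Finset.sum_const, hM, smul_eq_mul] at h1
    omega
  have hdy := hdeg y hy
  have hy7 := e7 y hy
  have hy4 := e4 y hy
  have hP : (N G y ∩ M).card = 3 := by omega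
  have hRN : R ⊆ N2 G y := by
    intro r hr
    have hrM : r ∉ M := Finset.disjoint_left.1 hRM hr
    rw [hR, Finset.mem_sdiff, Finset.mem_biUnion] at hr
    obtain ⟨⟨w, hw, hwr⟩, hrX⟩ := hr
    rw [mem_N2]
    refine ⟨?_, ?_, w, hall y hy w hw, (mem_N G).1 hwr⟩
    · rintro rfl
      exact hrM hy
    · intro hyr
      by_cases h1 : r ∈ S
      · have h2 : r ∈ N G y ∩ S := Finset.mem_inter.2 ⟨(mem_N G).2 hyr, h1⟩
        rw [Finset.card_eq_zero] at hy0
        rw [hy0] at h2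
        exact absurd h2 (Finset.notMem_empty _)
      · exact hrX ((mem_X3 G).2 ⟨h1, hrM, y, hy, hyr⟩)
  have hN2 : R = N2 G y := Finset.eq_of_subset_of_card_le hRN (by
    have := hbad y
    omega)
  have hclosed : ∀ v ∈ N G y ∩ M, N G v ∩ M ⊆ N G v ∩ (N G y ∩ M) := by
    intro v hv z hz
    rw [Finset.mem_inter, mem_N] at hv
    rw [Finset.mem_inter] at hz
    have h1 := N_subset G hG hv.1 hz.1
    rw [Finset.mem_union] at h1
    rcases h1 with h1 | h1
    · exact Finset.mem_inter.2 ⟨hz.1, Finset.mem_inter.2 ⟨h1, hz.2⟩⟩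
    · rw [← hN2] at h1
      exact absurd hz.2 (Finset.disjoint_left.1 hRM h1)
  have h1 : ∑ v ∈ N G y ∩ M, (N G v ∩ M).card ≤ ∑ v ∈ N G y ∩ M, (N G v ∩ (N G y ∩ M)).card :=
    Finset.sum_le_sum fun v hv => Finset.card_le_card (hclosed v hv)
  have h2 := sum_inside G hG (N G y ∩ M)
  rw [hP] at h2
  have h3 : ∑ v ∈ N G y ∩ M, 3 ≤ ∑ v ∈ N G y ∩ M, ((N G v ∩ S).card + (N G v ∩ M).card) := by
    apply Finset.sum_le_sum
    intro v hv
    have hvM := (Finset.mem_inter.1 hv).2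
    have q1 := hdeg v hvM
    have q2 := e7 v hvM
    have q3 := e4 v hvM
    omega
  rw [Finset.sum_const, hP, smul_eq_mul, Finset.sum_add_distrib] at h3
  have h4 : ∑ v ∈ N G y ∩ M, (N G v ∩ S).card ≤ ∑ v ∈ M, (N G v ∩ S).card :=
    Finset.sum_le_sum_of_subset Finset.inter_subset_right
  omega

end Pool.Agent.H17.SN
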