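import Mathlib
import Pool.Agent.H39.BurckelSix
import Pool.Agent.H17.SN.HandA

/-!
MP_2bbbb5 (minimum out-degree seven), hand case `|M| = 6`, `S` a regular tournament, `T = 6, 7`
(helper17).
-/

set_option autoImplicit false

namespace Pool.Agent.H17.SN

open Classical Pool.Agent.H39.Burckel

variable {V : Type} [Fintype V] (G : Digraph V)

/-- in a regular tournament on seven vertices everybody is reached in two steps -/
theorem reg_reach (hG : Oriented G) (S : Finset V) (hS : S.card = 7)
    (hA : ∀ u ∈ S, (N G u ∩ S).card = 3) : ∀ u ∈ S, 3 ≤ (N2 G u ∩ S).card := by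
  have hsumout : ∑ v ∈ S, (N G v ∩ S).card = 21 := by
    rw [Finset.sum_congr rfl hA, Finset.sum_const, hS]; rfl
  have hdc := dc G S S
  rw [hsumout] at hdc
  have hle : ∀ v ∈ S, inc G S v ≤ 3 := by
    intro v hv
    have hd : Disjoint (N G v ∩ S) (S.filter fun w => G.Adj w v) := by
      rw [Finset.disjoint_left]
      intro w hw hw'
      simp only [Finset.mem_inter, mem_N, Finset.mem_filter] at hw hw'
      exact hG _ _ hw.1 hw'.2
    have h1 : (N G v ∩ S) ∪ (S.filter fun w => G.Adj w v) ⊆ S.erase v := by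
      intro w hw
      rw [Finset.mem_erase]
      simp only [Finset.mem_union, Finset.mem_inter, mem_N, Finset.mem_filter] at hw
      rcases hw with hw | hw
      · refine ⟨?_, hw.2⟩
        rintro rfl
        exact hG _ _ hw.1 hw.1
      · refine ⟨?_, hw.1⟩
        rintro rfl
        exact hG _ _ hw.2 hw.2
    have h2 := Finset.card_le_card h1
    rw [Finset.card_union_of_disjoint hd, Finset.card_erase_of_mem hv, hA v hv, hS] at h2
    unfold inc
    omega
  have heq : ∀ v ∈ S, inc G S v = 3 := by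
    refine sum_eq_of_le hle ?_
    rw [← hdc, Finset.sum_const, hS]; rfl
  intro u hu
  have hsub : (S.erase u) \ (N G u ∩ S) ⊆ N2 G u ∩ S := by
    intro v hv
    rw [Finset.mem_sdiff, Finset.mem_erase, Finset.mem_inter, mem_N] at hv
    obtain ⟨⟨hne, hvS⟩, hnot⟩ := hv
    have hna : ¬ G.Adj u v := fun h => hnot ⟨h, hvS⟩
    rw [Finset.mem_inter, mem_N2]
    refine ⟨⟨hne, hna, ?_⟩, hvS⟩
    by_contra hcon
    push Not at hcon
    have h1 : (S.filter fun w => G.Adj w v) ⊆ ((S.erase u).erase v) \ (N G u ∩ S) := by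
      intro w hw
      rw [Finset.mem_filter] at hw
      rw [Finset.mem_sdiff, Finset.mem_erase, Finset.mem_erase, Finset.mem_inter, mem_N]
      refine ⟨⟨?_, ?_, hw.1⟩, ?_⟩
      · rintro rfl
        exact hG _ _ hw.2 hw.2
      · rintro rfl
        exact hna hw.2
      · intro h2
        exact hcon w h2.1 hw.2
    have h2 := Finset.card_le_card h1
    have h3 : N G u ∩ S ⊆ (S.erase u).erase v := by
      intro w hw
      rw [Finset.mem_inter, mem_N] at hw
      rw [Finset.mem_erase, Finset.mem_erase]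
      refine ⟨?_, ?_, hw.2⟩
      · rintro rfl
        exact hna hw.1
      · rintro rfl
        exact hG _ _ hw.1 hw.1
    rw [Finset.card_sdiff_of_subset h3, Finset.card_erase_of_mem (Finset.mem_erase.2 ⟨hne, hvS⟩),
      Finset.card_erase_of_mem hu, hS, hA u hu] at h2
    have h4 := heq v hvS
    unfold inc at h4
    omega
  have h1 := Finset.card_le_card hsub
  have h3 : N G u ∩ S ⊆ S.erase u := by
    intro w hw
    rw [Finset.mem_inter, mem_N] at hw
    rw [Finset.mem_erase]
    refine ⟨?_, hw.2⟩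
    rintro rfl
    exact hG _ _ hw.1 hw.1
  rw [Finset.card_sdiff_of_subset h3, Finset.card_erase_of_mem hu, hS, hA u hu] at h1
  omega

/-- The case `|M| = 6`, `S` a regular tournament, `T = 6` or `7`. -/
theorem hand_reg (hG : Oriented G) (hbad : ∀ v, (N2 G v).card < (N G v).card)
    (h7 : ∀ v, 7 ≤ (N G v).card) (x : V) (hS7 : (N G x).card = 7) (hM : (N2 G x).card = 6)
    (hA : ∀ u ∈ N G x, (N G u ∩ N G x).card = 3)
    (hT : ∑ y ∈ N2 G x, (N G y ∩ N G x).card = 6 ∨ ∑ y ∈ N2 G x, (N G y ∩ N G x).card = 7) :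
    False := by
  set S := N G x with hS
  set M := N2 G x with hMd
  set X := X3 G x with hX
  set T := ∑ y ∈ M, (N G y ∩ S).card with hTd
  have hreach := reg_reach G hG S hS7 hA
  -- degrees of the members of `S`
  have hsplit : ∀ v ∈ S, (N G v).card = 3 + (N G v ∩ M).card := by
    intro v hv
    rw [← hA v hv, ← Finset.card_union_of_disjoint ((N_disj G x).mono Finset.inter_subset_right
      Finset.inter_subset_right), ← Finset.inter_union_distrib_left]
    congr 1
    rw [Finset.inter_eq_left.2]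
    exact N_subset G hG ((mem_N G).1 (hS ▸ hv))
  have hD6 : ∀ v, (N G v ∩ M).card ≤ 6 := fun v => by
    rw [← hM]
    exact Finset.card_le_card Finset.inter_subset_right
  have hW : ∀ u ∈ S, (N2 G u \ S).card + 1 ≤ (N G u ∩ M).card := by
    intro u hu
    have h1 := hreach u hu
    have h2 := hbad u
    have h3 := hsplit u hu
    have h4 := Finset.card_inter_add_card_sdiff (N2 G u) S
    omega
  have hsumdeg : ∀ u ∈ S, (N G u ∩ M).card * 7 ≤ ∑ y ∈ N G u ∩ M, (N G y ∩ S).card +
      ∑ y ∈ N G u ∩ M, (N G y ∩ (N G u ∩ M)).card + (N G u ∩ M).card * (N2 G u \ S).card :=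
    fun u hu => sum_deg G hG x u 7 h7 ((mem_N G).1 (hS ▸ hu))
  have hTle : T ≤ 7 := by omega
  have hpart : ∀ u, ∑ y ∈ N G u ∩ M, (N G y ∩ S).card ≤ T := fun u =>
    Finset.sum_le_sum_of_subset Finset.inter_subset_right
  have hD5 : ∀ u ∈ S, (N G u ∩ M).card = 5 ∨ (N G u ∩ M).card = 6 := by
    intro u hu
    have h1 := hsplit u hu
    have h2 := h7 u
    have h3 := hD6 u
    have h4 : (N G u ∩ M).card = 4 ∨ (N G u ∩ M).card = 5 ∨ (N G u ∩ M).card = 6 := by omega
    rcases h4 with h4 | h4 | h4
    · exfalso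
      have h5 := hsumdeg u hu
      have h6 := sum_inside G hG (N G u ∩ M)
      have h8 := hW u hu
      have h9 := hpart u
      rw [h4] at h5 h6 h8
      omega
    · exact Or.inl h4
    · exact Or.inr h4
  have hneed : ∀ u ∈ S, (N G u ∩ M).card = 5 → 5 ≤ ∑ y ∈ N G u ∩ M, (N G y ∩ S).card := by
    intro u hu h4
    have h5 := hsumdeg u hu
    have h6 := sum_inside G hG (N G u ∩ M)
    have h8 := hW u hu
    rw [h4] at h5 h6 h8
    omega
  -- the in-degrees from `M`
  have htd : ∀ u ∈ S, inc G M u + (N G u ∩ M).card ≤ 6 := by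
    intro u hu
    have hd : Disjoint (M.filter fun w => G.Adj w u) (N G u ∩ M) := by
      rw [Finset.disjoint_left]
      intro w hw hw'
      simp only [Finset.mem_inter, mem_N, Finset.mem_filter] at hw hw'
      exact hG _ _ hw.2 hw'.1
    unfold inc
    rw [← Finset.card_union_of_disjoint hd, ← hM]
    exact Finset.card_le_card (Finset.union_subset (Finset.filter_subset _ _)
      Finset.inter_subset_right)
  have ht1 : ∀ u ∈ S, inc G M u ≤ 1 := by
    intro u hu
    have h1 := htd u hu
    rcases hD5 u hu with h | h <;> omega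
  have hTt : T = ∑ u ∈ S, inc G M u := dc G M S
  set U := S.filter (fun u => inc G M u = 1) with hU
  have hUc : U.card = T := by
    rw [hTt, hU, Finset.card_filter]
    refine Finset.sum_congr rfl fun u hu => ?_
    have h1 := ht1 u hu
    split_ifs with h2
    · exact h2.symm
    · omega
  have hSU : (S \ U).card + T = 7 := by
    rw [← hUc, ← hS7]
    exact Finset.card_sdiff_add_card_eq_card (Finset.filter_subset _ _)
  -- the exceptional vertex of `M`
  have hyex : ∀ u ∈ U, ∃ y ∈ M, G.Adj y u ∧ (∀ y' ∈ M, y' ≠ y → G.Adj u y') := by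
    intro u hu
    rw [hU, Finset.mem_filter] at hu
    obtain ⟨huS, hu1⟩ := hu
    have h1 := htd u huS
    have h5 : (N G u ∩ M).card = 5 := by
      rcases hD5 u huS with h | h
      · exact h
      · omega
    unfold inc at hu1
    obtain ⟨y, hy⟩ := Finset.card_eq_one.1 hu1
    have hym : y ∈ M.filter fun w => G.Adj w u := by rw [hy]; exact Finset.mem_singleton_self _
    rw [Finset.mem_filter] at hym
    refine ⟨y, hym.1, hym.2, ?_⟩
    have h2 : N G u ∩ M ⊆ M.erase y := by
      intro z hz
      rw [Finset.mem_inter, mem_N] at hz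
      rw [Finset.mem_erase]
      refine ⟨?_, hz.2⟩
      rintro rfl
      exact hG _ _ hz.1 hym.2
    have h3 : N G u ∩ M = M.erase y := Finset.eq_of_subset_of_card_le h2 (by
      rw [Finset.card_erase_of_mem hym.1, hM, h5])
    intro y' hy' hne
    have h4 : y' ∈ N G u ∩ M := by
      rw [h3]
      exact Finset.mem_erase.2 ⟨hne, hy'⟩
    exact (mem_N G).1 (Finset.mem_inter.1 h4).1
  choose! yy hyM hyu hyo using hyex
  have hUS : ∀ u ∈ U, u ∈ S := fun u hu => (Finset.mem_filter.1 hu).1
  have hNu : ∀ u ∈ U, N G u ∩ M = M.erase (yy u) := by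
    intro u hu
    ext z
    rw [Finset.mem_inter, mem_N, Finset.mem_erase]
    constructor
    · rintro ⟨h1, h2⟩
      refine ⟨?_, h2⟩
      intro h3
      rw [h3] at h1
      exact hG _ _ h1 (hyu u hu)
    · rintro ⟨h1, h2⟩
      exact ⟨hyo u hu z h2 h1, h2⟩
  have hNu5 : ∀ u ∈ U, (N G u ∩ M).card = 5 := by
    intro u hu
    rw [hNu u hu, Finset.card_erase_of_mem (hyM u hu), hM]
  have hB : ∀ u ∈ U, (N G (yy u) ∩ S).card + 5 ≤ T := by
    intro u hu
    have h1 := hneed u (hUS u hu) (hNu5 u hu)
    rw [hNu u hu] at h1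
    have h2 := Finset.add_sum_erase M (fun y => (N G y ∩ S).card) (hyM u hu)
    beta_reduce at h2
    rw [← hTd] at h2
    omega
  -- the missing pairs
  set Wt := X.filter (fun w => inc G M w ≤ 1) with hWt
  have hI : ∑ y ∈ M, (N G y ∩ X).card + 5 * Wt.card ≤ 6 * X.card := by
    rw [dc G M X, hWt, Finset.card_filter, Finset.mul_sum, ← Finset.sum_add_distrib,
      mul_comm 6, ← smul_eq_mul X.card, ← Finset.sum_const]
    apply Finset.sum_le_sum
    intro w _
    have h1 : inc G M w ≤ 6 := by
      rw [← hM]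
      exact Finset.card_le_card (Finset.filter_subset _ _)
    split_ifs with h2 <;> omega
  have hdegsum : 42 ≤ T + 15 + ∑ y ∈ M, (N G y ∩ X).card := by
    have h1 : ∑ y ∈ M, 7 ≤ ∑ y ∈ M, (N G y).card := Finset.sum_le_sum fun y _ => h7 y
    have hdeg : ∀ y ∈ M, (N G y).card =
        (N G y ∩ S).card + (N G y ∩ M).card + (N G y ∩ X).card := fun y hy => deg_M G hy
    rw [Finset.sum_const, hM, smul_eq_mul, Finset.sum_congr rfl hdeg, Finset.sum_add_distrib,
      Finset.sum_add_distrib, ← hTd] at h1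
    have h2 := sum_inside G hG M
    rw [hM] at h2
    omega
  -- the set `W y`
  set W : V → Finset V := fun y => X.filter (fun w => ∀ y' ∈ M, G.Adj y' w → y' = y) with hWd
  have hWWt : ∀ y, W y ⊆ Wt := by
    intro y w hw
    rw [hWd, Finset.mem_filter] at hw
    rw [hWt, Finset.mem_filter]
    refine ⟨hw.1, ?_⟩
    have h1 : (M.filter fun y' => G.Adj y' w) ⊆ {y} := by
      intro y' hy'
      rw [Finset.mem_filter] at hy'
      exact Finset.mem_singleton.2 (hw.2 y' hy'.1 hy'.2)
    exact (Finset.card_le_card h1).trans (by simp)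
  have hXW : ∀ u ∈ U, X \ W (yy u) ⊆ (N2 G u \ S).erase (yy u) := by
    intro u hu w hw
    rw [Finset.mem_sdiff, hWd, Finset.mem_filter] at hw
    obtain ⟨hwX, hw2⟩ := hw
    have hwX' := (mem_X3 G).1 hwX
    have h1 : ∃ y' ∈ M, G.Adj y' w ∧ y' ≠ yy u := by
      by_contra hcon
      push Not at hcon
      exact hw2 ⟨hwX, hcon⟩
    obtain ⟨y', hy', hyw, hne⟩ := h1
    rw [Finset.mem_erase, Finset.mem_sdiff, mem_N2]
    refine ⟨?_, ⟨?_, ?_, y', hyo u hu y' hy' hne, hyw⟩, hwX'.1⟩
    · rintro rfl
      exact hwX'.2.1 (hyM u hu)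
    · rintro rfl
      exact hwX'.1 (hUS _ hu)
    · intro huw
      have h3 := N_subset G hG ((mem_N G).1 (hS ▸ hUS u hu)) ((mem_N G).2 huw)
      rw [Finset.mem_union] at h3
      rcases h3 with h3 | h3
      · exact hwX'.1 h3
      · exact hwX'.2.1 h3
  have hN2S : ∀ u ∈ U, (N2 G u \ S).card ≤ 4 := by
    intro u hu
    have h1 := hW u (hUS u hu)
    have h2 := hNu5 u hu
    omega
  have hKW : ∀ u ∈ U, X.card ≤ 4 + (W (yy u)).card := by
    intro u hu
    have h1 := Finset.card_le_card (hXW u hu)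
    have h2 := (Finset.card_erase_le (s := N2 G u \ S) (a := yy u)).trans (hN2S u hu)
    have h3 : W (yy u) ⊆ X := Finset.filter_subset _ _
    have h4 := Finset.card_sdiff_add_card_eq_card h3
    omega
  -- double counting
  have hdc : U.card * (X.card - 4) ≤ Wt.card * (T - 5) := by
    refine Finset.card_mul_le_card_mul (fun u w => w ∈ W (yy u)) ?_ ?_
    · intro u hu
      have h1 : Finset.bipartiteAbove (fun u w => w ∈ W (yy u)) Wt u = W (yy u) := by
        ext w
        rw [Finset.mem_bipartiteAbove]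
        exact ⟨fun h => h.2, fun h => ⟨hWWt _ h, h⟩⟩
      rw [h1]
      have := hKW u hu
      omega
    · intro w hw
      by_cases hne : (Finset.bipartiteBelow (fun u w => w ∈ W (yy u)) U w).Nonempty
      · obtain ⟨u₀, hu₀⟩ := hne
        rw [Finset.mem_bipartiteBelow] at hu₀
        have hwX : w ∈ X := (Finset.mem_filter.1 hw).1
        obtain ⟨-, -, y, hyMm, hyw⟩ := (mem_X3 G).1 hwX
        have hsub : Finset.bipartiteBelow (fun u w => w ∈ W (yy u)) U w ⊆ N G (yy u₀) ∩ S := by
          intro u hu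
          rw [Finset.mem_bipartiteBelow] at hu
          have e1 : y = yy u := (Finset.mem_filter.1 hu.2).2 y hyMm hyw
          have e2 : y = yy u₀ := (Finset.mem_filter.1 hu₀.2).2 y hyMm hyw
          rw [Finset.mem_inter, mem_N, ← e2, e1]
          exact ⟨hyu u hu.1, hUS u hu.1⟩
        have h1 := Finset.card_le_card hsub
        have h2 := hB u₀ hu₀.1
        omega
      · rw [Finset.not_nonempty_iff_eq_empty] at hne
        rw [hne, Finset.card_empty]
        exact Nat.zero_le _
  have hK4 : X.card ≤ 4 := by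
    by_contra hcon
    push Not at hcon
    rw [hUc] at hdc
    obtain ⟨k, hk⟩ := Nat.exists_eq_add_of_lt hcon
    rcases hT with h | h
    · rw [h, hk] at hdc
      rw [h] at hdegsum
      rw [hk] at hI
      have e1 : 4 + k + 1 - 4 = k + 1 := by omega
      rw [e1] at hdc
      omega
    · rw [h, hk] at hdc
      rw [h] at hdegsum
      rw [hk] at hI
      have e1 : 4 + k + 1 - 4 = k + 1 := by omega
      rw [e1] at hdc
      omega
  have hWt0 : Wt.card = 0 := by omega
  have hX4 : X.card = 4 := by omega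
  -- a member of `U`
  have hUne : U.Nonempty := by rw [← Finset.card_pos]; omega
  obtain ⟨u, hu⟩ := hUne
  have hW0 : (W (yy u)).card = 0 := by
    have := Finset.card_le_card (hWWt (yy u))
    omega
  -- `yy u` is not reached
  have hnr : yy u ∉ N2 G u := by
    intro h
    have h0 : yy u ∉ S := fun h2 => Finset.disjoint_left.1 (N_disj G x) h2 (hyM u hu)
    have h1 : yy u ∈ N2 G u \ S := Finset.mem_sdiff.2 ⟨h, h0⟩
    have h2 := Finset.card_le_card (hXW u hu)
    rw [Finset.card_erase_of_mem h1] at h2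
    have h3 : W (yy u) ⊆ X := Finset.filter_subset _ _
    have h4 := Finset.card_sdiff_add_card_eq_card h3
    have h5 := hN2S u hu
    omega
  have hsub : insert u ((N G u ∩ S) \ (S \ U)) ⊆ N G (yy u) ∩ S := by
    intro v hv
    rw [Finset.mem_insert] at hv
    rcases hv with rfl | hv
    · exact Finset.mem_inter.2 ⟨(mem_N G).2 (hyu v hu), hUS v hu⟩
    · rw [Finset.mem_sdiff, Finset.mem_inter, mem_N, Finset.mem_sdiff] at hv
      obtain ⟨⟨huv, hvS⟩, hv2⟩ := hv
      have hvU : v ∈ U := by
        by_contra h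
        exact hv2 ⟨hvS, h⟩
      have h1 : ¬ G.Adj v (yy u) := by
        intro h
        apply hnr
        rw [mem_N2]
        refine ⟨?_, ?_, v, huv, h⟩
        · intro h2
          have h3 := hyu u hu
          rw [h2] at h3
          exact hG _ _ h3 h3
        · intro h2
          exact hG _ _ h2 (hyu u hu)
      have h2 : yy u = yy v := by
        by_contra hne
        exact h1 (hyo v hvU (yy u) (hyM u hu) hne)
      rw [Finset.mem_inter, mem_N, h2]
      exact ⟨hyu v hvU, hvS⟩
  have h1 := Finset.card_le_card hsub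
  have hnin : u ∉ (N G u ∩ S) \ (S \ U) := by
    rw [Finset.mem_sdiff, Finset.mem_inter, mem_N]
    rintro ⟨⟨h2, -⟩, -⟩
    exact hG _ _ h2 h2
  rw [Finset.card_insert_of_notMem hnin] at h1
  have h2 := Finset.le_card_sdiff (S \ U) (N G u ∩ S)
  rw [hA u (hUS u hu)] at h2
  have h3 := hB u hu
  omega

end Pool.Agent.H17.SN
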