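import Mathlib
import Pool.Agent.H39.BurckelSixB

/-!
MP_2bbbb5 (minimum out-degree seven), with the Hall property of an arc-minimal counterexample:
`5 ≤ |M|` and the case `T = 0`, `|M| = 6` (helper17).
-/

set_option autoImplicit false

namespace Pool.Agent.H17.SN

open Classical Pool.Agent.H39.Burckel

variable {V : Type} [Fintype V] (G : Digraph V)

theorem five_le (hG : Oriented G)
    (hall : ∀ (u : V) (Y : Finset V), Y ⊂ N G u → Y.card ≤ ((Y.biUnion fun y => N G y) \ Y).card)
    (x : V) (hS7 : (N G x).card = 7) : 5 ≤ (N2 G x).card := by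
  obtain ⟨v, hv⟩ : (N G x).Nonempty := by rw [← Finset.card_pos]; omega
  have h1 := hall x ((N G x).erase v) (Finset.erase_ssubset hv)
  have h2 : (((N G x).erase v).biUnion fun y => N G y) \ (N G x).erase v ⊆ insert v (N2 G x) := by
    intro w hw
    rw [Finset.mem_sdiff, Finset.mem_biUnion, Finset.mem_erase] at hw
    obtain ⟨⟨y, hy, hyw⟩, hw2⟩ := hw
    have h3 := N_subset G hG ((mem_N G).1 (Finset.mem_of_mem_erase hy)) hyw
    rw [Finset.mem_union] at h3
    rw [Finset.mem_insert]
    rcases h3 with h3 | h3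
    · left
      by_contra hne
      exact hw2 ⟨hne, h3⟩
    · exact Or.inr h3
  have h4 := (Finset.card_le_card h2).trans (Finset.card_insert_le _ _)
  rw [Finset.card_erase_of_mem hv, hS7] at h1
  omega

/-- The subgraph induced on `S` has a Seymour vertex if a member of `S` has at most six
out-neighbours in `S`. -/
theorem seymour_in (hG : Oriented G) (S : Finset V) {u : V} (hu : u ∈ S)
    (h6 : (N G u ∩ S).card ≤ 6) : ∃ f ∈ S, (N G f ∩ S).card ≤ (N2 G f ∩ S).card := by
  have h1 : (N (induce G S) ⟨u, hu⟩).card ≤ 6 := by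
    rw [← ncard_N, ncard_induce_N]
    exact h6
  obtain ⟨f, hf⟩ := kaneko_locke (induce G S) (induce_oriented G hG S) ⟨u, hu⟩ h1
  refine ⟨f.1, f.2, ?_⟩
  unfold IsSeymour at hf
  rw [ncard_induce_N, ncard_induce_N2] at hf
  exact hf.trans (Finset.card_le_card (N2in_subset G S f.1))

/-- The case `|M| = 6`, `T = 0`. -/
theorem handT0 (hG : Oriented G) (hbad : ∀ v, (N2 G v).card < (N G v).card)
    (h7 : ∀ v, 7 ≤ (N G v).card)
    (hall : ∀ (u : V) (Y : Finset V), Y ⊂ N G u → Y.card ≤ ((Y.biUnion fun y => N G y) \ Y).card)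
    (x : V) (hS7 : (N G x).card = 7) (hM : (N2 G x).card = 6)
    (hT : ∑ y ∈ N2 G x, (N G y ∩ N G x).card = 0) : False := by
  set S := N G x with hS
  set M := N2 G x with hMd
  have hy0 : ∀ y ∈ M, N G y ∩ S = ∅ := by
    intro y hy
    rw [← Finset.card_eq_zero]
    exact Finset.sum_eq_zero_iff.1 hT y hy
  obtain ⟨v, hv⟩ : S.Nonempty := by rw [← Finset.card_pos]; omega
  have hv6 : (N G v ∩ S).card ≤ 6 := by
    have h1 : N G v ∩ S ⊆ S.erase v := by
      intro w hw
      rw [Finset.mem_inter, mem_N] at hw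
      rw [Finset.mem_erase]
      refine ⟨?_, hw.2⟩
      rintro rfl
      exact hG _ _ hw.1 hw.1
    have h2 := Finset.card_le_card h1
    rw [Finset.card_erase_of_mem hv, hS7] at h2
    exact h2
  obtain ⟨u, hu, hCA⟩ := seymour_in G hG S hv hv6
  have hxu : G.Adj x u := (mem_N G).1 (hS ▸ hu)
  have hsplit : (N G u).card = (N G u ∩ S).card + (N G u ∩ M).card := by
    rw [← Finset.card_union_of_disjoint ((N_disj G x).mono Finset.inter_subset_right
      Finset.inter_subset_right), ← Finset.inter_union_distrib_left]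
    congr 1
    rw [Finset.inter_eq_left.2]
    exact N_subset G hG hxu
  have hb := hbad u
  have h7u := h7 u
  have hcs := Finset.card_inter_add_card_sdiff (N2 G u) S
  have hD6 : (N G u ∩ M).card ≤ 6 := by
    rw [← hM]
    exact Finset.card_le_card Finset.inter_subset_right
  have hsum := sum_deg G hG x u 7 h7 hxu
  rw [← hS, ← hMd] at hsum
  have hzero : ∑ y ∈ N G u ∩ M, (N G y ∩ S).card = 0 := by
    apply Finset.sum_eq_zero
    intro y hy
    rw [hy0 y (Finset.mem_inter.1 hy).2, Finset.card_empty]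
  have hin := sum_inside G hG (N G u ∩ M)
  rw [hzero] at hsum
  have hW : (N2 G u \ S).card + 1 ≤ (N G u ∩ M).card := by omega
  have hDeq : (N G u ∩ M).card = 6 := by
    have hc : (N G u ∩ M).card = 0 ∨ (N G u ∩ M).card = 1 ∨ (N G u ∩ M).card = 2 ∨
        (N G u ∩ M).card = 3 ∨ (N G u ∩ M).card = 4 ∨ (N G u ∩ M).card = 5 ∨
        (N G u ∩ M).card = 6 := by omega
    rcases hc with h | h | h | h | h | h | h
    all_goals first
      | exact h
      | (exfalso; rw [h] at hsum hin hW; omega)
  have hMu : M ⊆ N G u := by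
    have h1 : N G u ∩ M = M := Finset.eq_of_subset_of_card_le Finset.inter_subset_right (by
      rw [hDeq, hM])
    rw [← h1]
    exact Finset.inter_subset_left
  have hssub : M ⊂ N G u := by
    refine ⟨hMu, fun h => ?_⟩
    have h1 := Finset.card_le_card h
    omega
  have hH := hall u M hssub
  have hsub : (M.biUnion fun y => N G y) \ M ⊆ N2 G u \ S := by
    intro w hw
    rw [Finset.mem_sdiff, Finset.mem_biUnion] at hw
    obtain ⟨⟨y, hy, hyw⟩, hwM⟩ := hw
    have hwS : w ∉ S := by
      intro h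
      have h1 : w ∈ N G y ∩ S := Finset.mem_inter.2 ⟨hyw, h⟩
      rw [hy0 y hy] at h1
      exact absurd h1 (Finset.notMem_empty _)
    refine Finset.mem_sdiff.2 ⟨?_, hwS⟩
    have h1 := N_subset G hG ((mem_N G).1 (hMu hy)) hyw
    rw [Finset.mem_union] at h1
    rcases h1 with h1 | h1
    · exfalso
      have h2 := N_subset G hG hxu h1
      rw [Finset.mem_union] at h2
      rcases h2 with h2 | h2
      · exact hwS h2
      · exact hwM h2
    · exact h1
  have h1 := Finset.card_le_card hsub
  omega

end Pool.Agent.H17.SN
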